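import Pool.Agent.N766.HS.Sol

/-! Assembly: the solution on `ℝ³`. -/

open MeasureTheory Set Filter Topology

namespace N766.HS

abbrev E3 := EuclideanSpace ℝ (Fin 3)

/-- `x ↦ x₀ + i x₁` -/
noncomputable def Z : E3 →L[ℝ] ℂ :=
  (EuclideanSpace.proj (𝕜 := ℝ) (0 : Fin 3) : E3 →L[ℝ] ℝ).smulRight (1:ℂ) +
  (EuclideanSpace.proj (𝕜 := ℝ) (1 : Fin 3) : E3 →L[ℝ] ℝ).smulRight Complex.I

lemma Z_apply (x : E3) : Z x = (x 0 : ℂ) + (x 1 : ℂ) * Complex.I := by
  simp [Z]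

/-- `ζ = exp (l z)` -/
noncomputable def ze (l : ℝ) (x : E3) : ℂ := Complex.exp ((l:ℂ) * Z x)

lemma ze_ne (l : ℝ) (x : E3) : ze l x ≠ 0 := Complex.exp_ne_zero _

lemma ze_norm (l : ℝ) (x : E3) : ‖ze l x‖ = Real.exp (l * x 0) := by
  unfold ze
  rw [Complex.norm_exp, Z_apply]
  congr 1
  simp

lemma ze_deriv (l : ℝ) (x : E3) : HasFDerivAt (ze l) (((l:ℂ) * ze l x) • Z) x := by
  have h1 : HasFDerivAt (fun x : E3 => (l:ℂ) * Z x) ((l:ℂ) • Z) x := Z.hasFDerivAt.const_mul _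
  have h2 := h1.cexp
  refine h2.congr_fderiv ?_
  rw [smul_smul, mul_comm]
  rfl

lemma ze_cd (l : ℝ) : ContDiff ℝ 2 (ze l) := by
  unfold ze
  exact (contDiff_const.mul Z.contDiff).cexp

/-- The solution. -/
noncomputable def U (C l : ℝ) (φ : ℂ → ℝ) (x : E3) : ℝ := -C + ((ze l x).re + φ (ze l x))

variable {g : ℝ → ℝ} {G L B η : ℝ} {φ h : ℂ → ℝ}

/-- complex gradient of `U` -/
noncomputable def S (η l : ℝ) (h : ℂ → ℝ) (x : E3) : ℂ := (1 + q η h (ze l x)) * ((l:ℂ) * ze l x)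

/-- `Ψ c δ = re (c * Z δ)` -/
noncomputable def Psi : ℂ →L[ℝ] (E3 →L[ℝ] ℝ) :=
  ((ContinuousLinearMap.compL ℝ E3 ℂ ℝ).flip Z).comp
    ((ContinuousLinearMap.compL ℝ ℂ ℂ ℝ Complex.reCLM).comp (ContinuousLinearMap.mul ℝ ℂ))

lemma Psi_apply (c : ℂ) (δ : E3) : Psi c δ = (c * Z δ).re := rfl

lemma U_deriv (d : Dat g G L B η φ h) (C l : ℝ) (x : E3) :
    HasFDerivAt (U C l φ) (Psi (S η l h x)) x := by
  have h1 : HasFDerivAt (fun z : ℂ => z.re + φ z) (Complex.reCLM + Lr (q η h (ze l x))) (ze l x) :=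
    (Complex.reCLM.hasFDerivAt).add (φ_deriv d (ze l x))
  have h2 := (h1.comp x (ze_deriv l x)).const_add (-C)
  refine h2.congr_fderiv ?_
  ext δ
  rw [Psi_apply]
  simp only [S, ContinuousLinearMap.comp_apply, _root_.add_apply, _root_.smul_apply,
    Complex.reCLM_apply, Lr_apply, smul_eq_mul]
  rw [← Complex.add_re]
  congr 1
  ring

lemma S_cd (d : Dat g G L B η φ h) (hg : ContDiff ℝ 1 g) (l : ℝ) : ContDiff ℝ 1 (S η l h) := by
  unfold S
  have h1 : ContDiff ℝ 1 (ze l) := (ze_cd l).of_le (by norm_num)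
  exact (contDiff_const.add ((q_cd d hg).comp h1)).mul (contDiff_const.mul h1)

lemma S_deriv (d : Dat g G L B η φ h) (hg : ContDiff ℝ 1 g) (l : ℝ) (x : E3) :
    ∃ D : E3 →L[ℝ] ℂ, HasFDerivAt (S η l h) D x ∧ ∀ δ, D δ =
      (1 + q η h (ze l x)) * ((l:ℂ) * ((l:ℂ) * ze l x * Z δ)) +
      (Dq η h (ze l x) ((l:ℂ) * ze l x * Z δ)) * ((l:ℂ) * ze l x) := by
  have h1 : HasFDerivAt (fun x => q η h (ze l x)) ((Dq η h (ze l x)).comp (((l:ℂ) * ze l x) • Z)) x :=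
    (q_deriv d hg (ze l x)).comp x (ze_deriv l x)
  have h2 := (h1.const_add 1).mul ((ze_deriv l x).const_mul (l:ℂ))
  refine ⟨_, h2, fun δ => ?_⟩
  simp only [_root_.add_apply, _root_.smul_apply, ContinuousLinearMap.comp_apply, smul_eq_mul]
  ring

lemma fderiv_U (d : Dat g G L B η φ h) (C l : ℝ) :
    fderiv ℝ (U C l φ) = fun x => Psi (S η l h x) := funext fun x => (U_deriv d C l x).fderiv

lemma U_cd (d : Dat g G L B η φ h) (hg : ContDiff ℝ 1 g) (C l : ℝ) : ContDiff ℝ 2 (U C l φ) := by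
  have e : (2 : WithTop ℕ∞) = 1 + 1 := by norm_num
  rw [e, contDiff_succ_iff_fderiv]
  refine ⟨fun x => (U_deriv d C l x).differentiableAt, ?_, ?_⟩
  · intro h
    exact absurd h (by decide)
  · rw [fderiv_U d C l]
    exact Psi.contDiff.comp (S_cd d hg l)

lemma alg_id (A : ℂ →L[ℝ] ℂ) (c : ℂ) :
    (A c) * c + (A (c * Complex.I)) * (c * Complex.I) =
      ((‖c‖ ^ 2 : ℝ) : ℂ) * (A 1 + Complex.I * A Complex.I) := by
  have e1 : c = c.re • (1:ℂ) + c.im • Complex.I := by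
    apply Complex.ext <;> simp
  have e2 : c * Complex.I = (-c.im) • (1:ℂ) + c.re • Complex.I := by
    apply Complex.ext <;> simp
  have a1 : A c = (c.re : ℂ) * A 1 + (c.im : ℂ) * A Complex.I := by
    conv_lhs => rw [e1]
    rw [map_add, map_smul, map_smul, Complex.real_smul, Complex.real_smul]
  have a2 : A (c * Complex.I) = -(c.im : ℂ) * A 1 + (c.re : ℂ) * A Complex.I := by
    rw [e2, map_add, map_smul, map_smul, Complex.real_smul, Complex.real_smul]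
    push_cast; ring
  have e3 : c = (c.re : ℂ) + (c.im : ℂ) * Complex.I := (Complex.re_add_im c).symm
  have e4 : ((‖c‖ ^ 2 : ℝ) : ℂ) = (c.re : ℂ) ^ 2 + (c.im : ℂ) ^ 2 := by
    rw [Complex.sq_norm, Complex.normSq_apply]; push_cast; ring
  rw [a1, a2, e4]
  generalize A 1 = p at *
  generalize A Complex.I = r at *
  conv_lhs => 
    rw [show ((c.re : ℂ) * p + (c.im : ℂ) * r) * c + (-(c.im : ℂ) * p + (c.re : ℂ) * r) *
      (c * Complex.I) = (((c.re : ℂ) * p + (c.im : ℂ) * r) + (-(c.im : ℂ) * p + (c.re : ℂ) * r) *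
      Complex.I) * c by ring]
    rw [e3]
  simp only [Complex.add_re, Complex.ofReal_re, Complex.mul_re, Complex.I_re, mul_zero,
    Complex.ofReal_im, Complex.I_im, mul_one, sub_self, add_zero, Complex.add_im, Complex.mul_im,
    zero_add]
  linear_combination (-(c.im : ℂ) ^ 2 * p + (c.re:ℂ) * (c.im:ℂ) * r) * Complex.I_sq

open InnerProductSpace in
lemma lap_U (d : Dat g G L B η φ h) (hg : ContDiff ℝ 1 g) (C l : ℝ) (x : E3) :
    (Laplacian.laplacian (U C l φ)) x = l ^ 2 * (η * (2 * Real.pi)) * g ((ze l x).re + φ (ze l x)) := by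
  rw [laplacian_eq_iteratedFDeriv_orthonormalBasis (U C l φ) (EuclideanSpace.basisFun (Fin 3) ℝ)]
  obtain ⟨D, hD, hDa⟩ := S_deriv d hg l x
  have h2 : HasFDerivAt (fderiv ℝ (U C l φ)) (Psi.comp D) x := by
    rw [fderiv_U d C l]
    exact Psi.hasFDerivAt.comp x hD
  simp only [iteratedFDeriv_two_apply, h2.fderiv]
  rw [Fin.sum_univ_three]
  simp only [Matrix.cons_val_zero, Matrix.cons_val_one, ContinuousLinearMap.comp_apply,
    Psi_apply, EuclideanSpace.basisFun_apply]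
  have z0 : Z (EuclideanSpace.single (0 : Fin 3) (1:ℝ)) = 1 := by
    rw [Z_apply]; simp
  have z1 : Z (EuclideanSpace.single (1 : Fin 3) (1:ℝ)) = Complex.I := by
    rw [Z_apply]; simp
  have z2 : Z (EuclideanSpace.single (2 : Fin 3) (1:ℝ)) = 0 := by
    rw [Z_apply]; simp
  rw [hDa, hDa, hDa, z0, z1, z2]
  set c : ℂ := (l:ℂ) * ze l x with hc
  have ha := alg_id (Dq η h (ze l x)) c
  have hl := Dq_lap d hg (ze l x)
  simp only [mul_zero, mul_one, Complex.zero_re, add_zero]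
  rw [← Complex.add_re]
  have e1 : (1 + q η h (ze l x)) * ((l:ℂ) * c) + Dq η h (ze l x) c * c +
      ((1 + q η h (ze l x)) * ((l:ℂ) * (c * Complex.I)) +
        Dq η h (ze l x) (c * Complex.I) * c) * Complex.I =
      ((‖c‖ ^ 2 : ℝ) : ℂ) * (Dq η h (ze l x) 1 + Complex.I * Dq η h (ze l x) Complex.I) := by
    rw [← ha]
    linear_combination ((1 + q η h (ze l x)) * ((l:ℂ) * c)) * Complex.I_sq
  rw [e1, Complex.re_ofReal_mul, hl, d.hden]
  have hn : ‖c‖ ^ 2 = l ^ 2 * ‖ze l x‖ ^ 2 := by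
    rw [hc, norm_mul, Complex.norm_real, mul_pow, Real.norm_eq_abs, sq_abs]
  have hz : ‖ze l x‖ ≠ 0 := norm_ne_zero_iff.2 (ze_ne l x)
  rw [hn]
  unfold den
  field_simp

lemma U_noncrit (d : Dat g G L B η φ h) {l : ℝ} (hl : l ≠ 0) (C : ℝ) (x : E3) :
    fderiv ℝ (U C l φ) x ≠ 0 := by
  rw [(U_deriv d C l x).fderiv]
  have hS : S η l h x ≠ 0 := by
    unfold S
    refine mul_ne_zero ?_ (mul_ne_zero (by exact_mod_cast hl) (ze_ne l x))
    intro h0
    have h1 := q_norm d (ze l x)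
    have h2 : q η h (ze l x) = -1 := by linear_combination h0
    rw [h2, norm_neg, norm_one] at h1
    linarith
  intro h0
  apply hS
  have r1 : Psi (S η l h x) (EuclideanSpace.single (0 : Fin 3) (1:ℝ)) = 0 := by rw [h0]; rfl
  have r2 : Psi (S η l h x) (EuclideanSpace.single (1 : Fin 3) (1:ℝ)) = 0 := by rw [h0]; rfl
  rw [Psi_apply, Z_apply] at r1 r2
  apply Complex.ext
  · simpa using r1
  · simpa using r2

end N766.HS
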