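import Pool.Agent.N766.HS.Asm

/-! Final step: positivity set, and failure of one-dimensionality. -/

open MeasureTheory Set Filter Topology

namespace N766.HS

variable {g : ℝ → ℝ} {G L B η : ℝ} {φ h : ℂ → ℝ}

lemma U_neg (d : Dat g G L B η φ h) {C l : ℝ} (hC : 4 ≤ C) (hl : 0 < l) {x : E3} (hx : x 0 ≤ 0) :
    U C l φ x < 0 := by
  have h1 : ‖ze l x‖ ≤ 1 := by
    rw [ze_norm, Real.exp_le_one_iff]
    nlinarith
  have h2 := Complex.re_le_norm (ze l x)
  have h3 := le_abs_self (φ (ze l x))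
  have h4 := d.hom (ze l x)
  have h5 := om_le (ze l x)
  unfold U
  linarith

lemma om_le_eighth (w : ℂ) : om w ≤ 1 + ‖w‖ / 8 := by
  unfold om
  have := rpow_one_add_le_one_add_mul_self (s := ‖w‖) (by linarith [norm_nonneg w])
    (p := (1:ℝ)/8) (by norm_num) (by norm_num)
  linarith

/-- the point `(t, y, 0)` -/
noncomputable def pt (t y : ℝ) : E3 := !₂[t, y, 0]

@[simp] lemma pt_zero (t y : ℝ) : pt t y 0 = t := rfl
@[simp] lemma pt_one (t y : ℝ) : pt t y 1 = y := rfl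
@[simp] lemma pt_two (t y : ℝ) : pt t y 2 = 0 := rfl

lemma ze_pt (l t : ℝ) : ze l (pt t 0) = (Real.exp (l * t) : ℂ) := by
  unfold ze
  rw [Z_apply]
  simp

lemma ze_pt_pi {l : ℝ} (hl : l ≠ 0) (t : ℝ) :
    ze l (pt t (Real.pi / l)) = -(Real.exp (l * t) : ℂ) := by
  unfold ze
  rw [Z_apply]
  simp only [pt_zero, pt_one]
  have : (l:ℂ) * ((t:ℂ) + ((Real.pi / l : ℝ) : ℂ) * Complex.I) = ((l * t : ℝ) : ℂ) + Real.pi * Complex.I := by
    have hl' : (l:ℂ) ≠ 0 := by exact_mod_cast hl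
    push_cast
    field_simp
  rw [this, Complex.exp_add, Complex.exp_pi_mul_I]
  push_cast
  ring

lemma U_pt_lower (d : Dat g G L B η φ h) (C l t : ℝ) :
    -C + (7/8 * Real.exp (l * t) - 1) ≤ U C l φ (pt t 0) := by
  have h1 := neg_abs_le (φ (ze l (pt t 0)))
  have h2 := d.hom (ze l (pt t 0))
  have h3 := om_le_eighth (ze l (pt t 0))
  have h4 : ‖ze l (pt t 0)‖ = Real.exp (l * t) := by rw [ze_norm]; simp
  have h5 : (ze l (pt t 0)).re = Real.exp (l * t) := by rw [ze_pt]; exact Complex.ofReal_re _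
  unfold U
  rw [h5]
  rw [h4] at h3
  linarith

lemma U_pt_pi_upper (d : Dat g G L B η φ h) (C : ℝ) {l : ℝ} (hl : l ≠ 0) (t : ℝ) :
    U C l φ (pt t (Real.pi / l)) ≤ -C + (-(7/8 * Real.exp (l * t)) + 1) := by
  have h1 := le_abs_self (φ (ze l (pt t (Real.pi / l))))
  have h2 := d.hom (ze l (pt t (Real.pi / l)))
  have h3 := om_le_eighth (ze l (pt t (Real.pi / l)))
  have h4 : ‖ze l (pt t (Real.pi / l))‖ = Real.exp (l * t) := by rw [ze_norm]; simp
  have h5 : (ze l (pt t (Real.pi / l))).re = -Real.exp (l * t) := by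
    rw [ze_pt_pi hl, Complex.neg_re]
    congr 1
  unfold U
  rw [h5]
  rw [h4] at h3
  linarith

lemma exists_pos (d : Dat g G L B η φ h) {C l : ℝ} (hl : 0 < l) (hC : 4 ≤ C) :
    ∃ t : ℝ, 0 < U C l φ (pt t 0) := by
  refine ⟨Real.log (2 * C + 4) / l, lt_of_lt_of_le ?_ (U_pt_lower d C l _)⟩
  rw [mul_div_cancel₀ _ hl.ne', Real.exp_log (by linarith)]
  linarith

lemma inner_expand (e x : E3) : inner ℝ e x = e 0 * x 0 + e 1 * x 1 + e 2 * x 2 := by
  rw [PiLp.inner_apply, Fin.sum_univ_three]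
  simp [mul_comm]

lemma not_one_dim (d : Dat g G L B η φ h) {C l : ℝ} (hl : 0 < l) (hC : 4 ≤ C) :
    ¬ ∃ (V : ℝ → ℝ) (e : E3) (c : ℝ), ∀ x, U C l φ x = V (inner ℝ e x + c) := by
  rintro ⟨V, e, c, hV⟩
  obtain ⟨t, ht⟩ := exists_pos d hl hC
  -- moving in a direction orthogonal to `e` with first component `1`
  have key : ∀ v : E3, inner ℝ e v = 0 → v 0 = 1 → False := by
    intro v hv hv0
    have h1 : inner ℝ e (pt t 0 + (-t) • v) = inner ℝ e (pt t 0) := by
      rw [inner_add_right, inner_smul_right, hv]; ring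
    have h2 : U C l φ (pt t 0 + (-t) • v) = U C l φ (pt t 0) := by
      rw [hV, hV, h1]
    have h3 : (pt t 0 + (-t) • v : E3) 0 ≤ 0 := by
      simp [hv0]
    have h4 := U_neg d hC hl h3
    rw [h2] at h4
    linarith
  by_cases h1 : e 1 = 0
  · by_cases h2 : e 2 = 0
    · -- `e` is parallel to the first axis
      have h3 : inner ℝ e (pt t 0) = inner ℝ e (pt t (Real.pi / l)) := by
        rw [inner_expand, inner_expand, h1, h2]; simp
      have h4 : U C l φ (pt t 0) = U C l φ (pt t (Real.pi / l)) := by rw [hV, hV, h3]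
      have h5 := U_pt_pi_upper d C hl.ne' t
      have h6 := Real.exp_pos (l * t)
      linarith
    · refine key (!₂[1, 0, -(e 0 / e 2)] : E3) ?_ rfl
      rw [inner_expand]
      have a0 : (!₂[1, 0, -(e 0 / e 2)] : E3) 0 = 1 := rfl
      have a1 : (!₂[1, 0, -(e 0 / e 2)] : E3) 1 = 0 := rfl
      have a2 : (!₂[1, 0, -(e 0 / e 2)] : E3) 2 = -(e 0 / e 2) := rfl
      rw [a0, a1, a2]
      field_simp
      ring
  · refine key (!₂[1, -(e 0 / e 1), 0] : E3) ?_ rfl
    rw [inner_expand]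
    have a0 : (!₂[1, -(e 0 / e 1), 0] : E3) 0 = 1 := rfl
    have a1 : (!₂[1, -(e 0 / e 1), 0] : E3) 1 = -(e 0 / e 1) := rfl
    have a2 : (!₂[1, -(e 0 / e 1), 0] : E3) 2 = 0 := rfl
    rw [a0, a1, a2]
    field_simp
    ring

open scoped ContDiff in
/-- Every smooth compactly supported `f` has the required translate. -/
lemma exists_hyp {f : ℝ → ℝ} (hf : ContDiff ℝ ∞ f) (hfc : HasCompactSupport f) :
    ∃ C G L B : ℝ, 4 ≤ C ∧ Hyp (fun s => f (s - C)) G L B := by
  obtain ⟨R, hR, hR0⟩ := hfc.exists_pos_le_norm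
  obtain ⟨G, hG⟩ := hfc.exists_bound_of_continuous hf.continuous
  obtain ⟨L, hL⟩ := ContDiff.lipschitzWith_of_hasCompactSupport hfc hf (by norm_num)
  refine ⟨R + 4, G, L, 2 * R + 4, by linarith, ?_⟩
  refine ⟨(norm_nonneg _).trans (hG 0), L.2, by linarith, fun s => hG _, fun s t => ?_,
    fun s hs => ?_, fun s hs => ?_⟩
  · have := hL.dist_le_mul (s - (R + 4)) (t - (R + 4))
    rw [Real.dist_eq, Real.dist_eq, sub_sub_sub_cancel_right] at this
    exact this
  · refine hR0 _ ?_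
    rw [Real.norm_eq_abs, abs_of_neg (by linarith)]
    linarith
  · refine hR0 _ ?_
    rw [Real.norm_eq_abs, abs_of_pos (by linarith)]
    linarith

end N766.HS
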