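import Pool.Agent.N766.HS.Lap

/-! The contraction. -/

open MeasureTheory Set Filter Topology BoundedContinuousFunction

namespace N766.HS

/-- the density -/
noncomputable def den (g : ℝ → ℝ) (w : ℂ) (c : ℝ) : ℝ := (‖w‖ ^ 2)⁻¹ * g (w.re + c)

/-- hypotheses on `g` -/
structure Hyp (g : ℝ → ℝ) (G L B : ℝ) : Prop where
  hG : 0 ≤ G
  hL : 0 ≤ L
  hB : 0 ≤ B
  bd : ∀ s, |g s| ≤ G
  lip : ∀ s t, |g s - g t| ≤ L * |s - t|
  lo : ∀ s, s < 4 → g s = 0
  hi : ∀ s, B < s → g s = 0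

lemma om_le (w : ℂ) : om w ≤ 1 + ‖w‖ := by
  unfold om
  have h : 1 ≤ 1 + ‖w‖ := by linarith [norm_nonneg w]
  calc (1 + ‖w‖) ^ ((1:ℝ)/8) ≤ (1 + ‖w‖) ^ (1:ℝ) :=
        Real.rpow_le_rpow_of_exponent_le h (by norm_num)
    _ = _ := Real.rpow_one _

/-- geometric constant -/
noncomputable def cB (B : ℝ) : ℝ := 4 * (2 + B) ^ 2

lemma weight_key {B : ℝ} (hB : 0 ≤ B) (w : ℂ) (hw : 1 ≤ ‖w‖) (hre : |w.re| ≤ B + om w) :
    (‖w‖ ^ 2)⁻¹ * om w ≤ cB B * H (3/2) w := by
  set n : ℝ := 1 + ‖w‖ with hn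
  set a : ℝ := 1 + |w.re| with ha
  set b : ℝ := 1 + |w.im| with hb
  have hn1 : 1 ≤ n := by rw [hn]; linarith
  have ha1 : 1 ≤ a := one_le_re w
  have hb1 : 1 ≤ b := one_le_im w
  have hbn : b ≤ n := by
    have := Complex.abs_im_le_norm w
    rw [hb, hn]; linarith
  have hom : om w = n ^ ((1:ℝ)/8) := rfl
  have hom1 := one_le_om w
  have h1 : (‖w‖ ^ 2)⁻¹ ≤ 4 * n ^ (-2 : ℝ) := by
    have : n ^ (-2 : ℝ) = (n ^ 2)⁻¹ := by
      rw [Real.rpow_neg (by linarith)]; norm_num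
    rw [this, ← div_eq_mul_inv, ← one_div, div_le_div_iff₀ (by positivity) (by positivity)]
    nlinarith
  have h2 : a ≤ (2 + B) * om w := by
    rw [ha]
    nlinarith
  have h3 : a ^ (2:ℝ) ≤ (2 + B) ^ 2 * n ^ ((1:ℝ)/4) := by
    calc a ^ (2:ℝ) ≤ ((2 + B) * om w) ^ (2:ℝ) := Real.rpow_le_rpow (by linarith) h2 (by norm_num)
      _ = (2 + B) ^ 2 * n ^ ((1:ℝ)/4) := by
        rw [Real.mul_rpow (by linarith) (om_pos w).le, hom, ← Real.rpow_mul (by linarith)]
        norm_num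
  have ha2 : (0:ℝ) < a ^ (2:ℝ) := by positivity
  have h4 : (1:ℝ) ≤ (2 + B) ^ 2 * n ^ ((1:ℝ)/4) * a ^ (-2:ℝ) := by
    rw [Real.rpow_neg (by linarith), ← div_eq_mul_inv, le_div_iff₀ ha2]
    linarith
  have h5 : n ^ (-(13/8) : ℝ) ≤ b ^ (-(3/2) : ℝ) := by
    calc n ^ (-(13/8) : ℝ) ≤ n ^ (-(3/2) : ℝ) :=
          Real.rpow_le_rpow_of_exponent_le hn1 (by norm_num)
      _ ≤ b ^ (-(3/2) : ℝ) := Real.rpow_le_rpow_of_nonpos (by linarith) hbn (by norm_num)
  have h6 : a ^ (-2 : ℝ) ≤ a ^ (-(3/2) : ℝ) :=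
    Real.rpow_le_rpow_of_exponent_le ha1 (by norm_num)
  have hHeq : H (3/2) w = a ^ (-(3/2) : ℝ) * b ^ (-(3/2) : ℝ) := rfl
  have hn0 : (0:ℝ) < n := by linarith
  calc (‖w‖ ^ 2)⁻¹ * om w ≤ (4 * n ^ (-2 : ℝ)) * om w :=
        mul_le_mul_of_nonneg_right h1 (om_pos w).le
    _ = (4 * n ^ (-2 : ℝ) * n ^ ((1:ℝ)/8)) * 1 := by rw [hom]; ring
    _ ≤ (4 * n ^ (-2 : ℝ) * n ^ ((1:ℝ)/8)) * ((2 + B) ^ 2 * n ^ ((1:ℝ)/4) * a ^ (-2:ℝ)) :=
        mul_le_mul_of_nonneg_left h4 (by positivity)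
    _ = cB B * ((n ^ (-2 : ℝ) * n ^ ((1:ℝ)/8) * n ^ ((1:ℝ)/4)) * a ^ (-2:ℝ)) := by
        unfold cB; ring
    _ = cB B * (n ^ (-(13/8) : ℝ) * a ^ (-2:ℝ)) := by
        rw [← Real.rpow_add hn0, ← Real.rpow_add hn0]; norm_num
    _ ≤ cB B * (b ^ (-(3/2) : ℝ) * a ^ (-(3/2) : ℝ)) := by
        refine mul_le_mul_of_nonneg_left ?_ (by unfold cB; positivity)
        exact mul_le_mul h5 h6 (by positivity) (by positivity)
    _ = _ := by rw [hHeq]; ring

variable {g : ℝ → ℝ} {G L B : ℝ}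

lemma re_lt_four {w : ℂ} {c : ℝ} (hw : ‖w‖ < 1) (hc : |c| ≤ om w) : w.re + c < 4 := by
  have h1 := Complex.re_le_norm w
  have h2 := om_le w
  have h3 := le_abs_self c
  linarith

lemma den_small (hy : Hyp g G L B) {w : ℂ} {c : ℝ} (hw : ‖w‖ < 1) (hc : |c| ≤ om w) :
    den g w c = 0 := by
  unfold den
  rw [hy.lo _ (re_lt_four hw hc), mul_zero]

lemma g_far (hy : Hyp g G L B) {w : ℂ} {c : ℝ} (hre : ¬ |w.re| ≤ B + om w) (hc : |c| ≤ om w) :
    (w.re + c < 4 ∨ B < w.re + c) := by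
  rw [not_le, lt_abs] at hre
  have h1 := le_abs_self c
  have h2 := neg_abs_le c
  have := hy.hB
  rcases hre with h | h
  · right; linarith
  · left; linarith

lemma g_far_zero (hy : Hyp g G L B) {w : ℂ} {c : ℝ} (hre : ¬ |w.re| ≤ B + om w)
    (hc : |c| ≤ om w) : g (w.re + c) = 0 := by
  rcases g_far hy hre hc with h | h
  · exact hy.lo _ h
  · exact hy.hi _ h

lemma den_bound (hy : Hyp g G L B) {w : ℂ} {c : ℝ} (hc : |c| ≤ om w) :
    |den g w c| ≤ (cB B * G) * H (3/2) w := by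
  have hR : 0 ≤ (cB B * G) * H (3/2) w := by
    have := hy.hG
    have := H_nonneg (3/2) w
    unfold cB
    positivity
  rcases lt_or_ge ‖w‖ 1 with hw | hw
  · rw [den_small hy hw hc, abs_zero]; exact hR
  · by_cases hre : |w.re| ≤ B + om w
    · have h1 := weight_key hy.hB w hw hre
      unfold den
      rw [abs_mul, abs_of_nonneg (by positivity : (0:ℝ) ≤ (‖w‖ ^ 2)⁻¹)]
      calc (‖w‖ ^ 2)⁻¹ * |g (w.re + c)| ≤ (‖w‖ ^ 2)⁻¹ * G :=
            mul_le_mul_of_nonneg_left (hy.bd _) (by positivity)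
        _ ≤ ((‖w‖ ^ 2)⁻¹ * om w) * G := by
            have h2 := one_le_om w
            have h3 := hy.hG
            have h4 : (0:ℝ) ≤ (‖w‖ ^ 2)⁻¹ := by positivity
            have h5 : (‖w‖ ^ 2)⁻¹ ≤ (‖w‖ ^ 2)⁻¹ * om w := le_mul_of_one_le_right h4 h2
            exact mul_le_mul_of_nonneg_right h5 h3
        _ ≤ (cB B * H (3/2) w) * G := mul_le_mul_of_nonneg_right h1 hy.hG
        _ = _ := by ring
    · unfold den
      rw [g_far_zero hy hre hc, mul_zero, abs_zero]; exact hR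

lemma den_lip (hy : Hyp g G L B) {w : ℂ} {c c' : ℝ} (hc : |c| ≤ om w) (hc' : |c'| ≤ om w) :
    |den g w c - den g w c'| ≤ (cB B * L) * H (3/2) w * (|c - c'| / om w) := by
  have hR : 0 ≤ (cB B * L) * H (3/2) w * (|c - c'| / om w) := by
    have := hy.hL
    have := H_nonneg (3/2) w
    have := om_pos w
    unfold cB
    positivity
  rcases lt_or_ge ‖w‖ 1 with hw | hw
  · rw [den_small hy hw hc, den_small hy hw hc', sub_zero, abs_zero]; exact hR
  · by_cases hre : |w.re| ≤ B + om w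
    · have h1 := weight_key hy.hB w hw hre
      unfold den
      rw [← mul_sub, abs_mul, abs_of_nonneg (by positivity : (0:ℝ) ≤ (‖w‖ ^ 2)⁻¹)]
      have h2 := hy.lip (w.re + c) (w.re + c')
      rw [add_sub_add_left_eq_sub] at h2
      have ho := om_pos w
      calc (‖w‖ ^ 2)⁻¹ * |g (w.re + c) - g (w.re + c')| ≤ (‖w‖ ^ 2)⁻¹ * (L * |c - c'|) :=
            mul_le_mul_of_nonneg_left h2 (by positivity)
        _ = ((‖w‖ ^ 2)⁻¹ * om w) * (L * (|c - c'| / om w)) := by field_simp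
        _ ≤ (cB B * H (3/2) w) * (L * (|c - c'| / om w)) := by
            refine mul_le_mul_of_nonneg_right h1 ?_
            have := hy.hL
            positivity
        _ = _ := by ring
    · unfold den
      rw [g_far_zero hy hre hc, g_far_zero hy hre hc', mul_zero, sub_zero, abs_zero]; exact hR

/-- clamp -/
noncomputable def cl (x : ℝ) : ℝ := max (-1) (min 1 x)

lemma cl_abs (x : ℝ) : |cl x| ≤ 1 := by
  unfold cl
  rw [abs_le]
  exact ⟨le_max_left _ _, max_le (by norm_num) (min_le_left _ _)⟩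

lemma cl_lip (x y : ℝ) : |cl x - cl y| ≤ |x - y| := by
  unfold cl
  have h1 := abs_max_sub_max_le_max (-1 : ℝ) (min 1 x) (-1) (min 1 y)
  have h2 := abs_min_sub_min_le_max (1 : ℝ) x 1 y
  rw [sub_self, abs_zero] at h1 h2
  have h3 := max_eq_right (abs_nonneg (min 1 x - min 1 y))
  have h4 := max_eq_right (abs_nonneg (x - y))
  rw [h3] at h1
  rw [h4] at h2
  exact h1.trans h2

lemma cl_eq {x : ℝ} (h : |x| ≤ 1) : cl x = x := by
  rw [abs_le] at h
  unfold cl
  rw [min_eq_right h.2, max_eq_right h.1]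

lemma cl_cont : Continuous cl := by unfold cl; fun_prop

lemma g_cont (hy : Hyp g G L B) : Continuous g := by
  have : LipschitzWith ⟨L, hy.hL⟩ g := by
    refine LipschitzWith.of_dist_le_mul fun s t => ?_
    rw [Real.dist_eq, Real.dist_eq]
    exact hy.lip s t
  exact this.continuous

lemma den_cont (hy : Hyp g G L B) {φ : ℂ → ℝ} (hφ : Continuous φ) (hb : ∀ w, |φ w| ≤ om w) :
    Continuous fun w => den g w (φ w) := by
  rw [continuous_iff_continuousAt]
  intro w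
  by_cases hw : w = 0
  · have h0 : (fun w => den g w (φ w)) =ᶠ[𝓝 w] fun _ => 0 := by
      filter_upwards [Metric.ball_mem_nhds w one_pos] with z hz
      rw [hw, mem_ball_zero_iff] at hz
      exact den_small hy hz (hb z)
    exact continuousAt_const.congr h0.symm
  · unfold den
    have h1 : ContinuousAt (fun w : ℂ => (‖w‖ ^ 2)⁻¹) w := by
      refine ContinuousAt.inv₀ (by fun_prop) ?_
      have := norm_pos_iff.2 hw
      positivity
    exact h1.mul ((g_cont hy).continuousAt.comp (by fun_prop))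

/-- the density attached to `b` -/
noncomputable def hb (g : ℝ → ℝ) (b : ℂ → ℝ) (w : ℂ) : ℝ := den g w (om w * cl (b w))

lemma om_cl (b : ℂ → ℝ) (w : ℂ) : |om w * cl (b w)| ≤ om w := by
  rw [abs_mul, abs_of_pos (om_pos w)]
  have := cl_abs (b w)
  nlinarith [om_pos w]

lemma hb_cont (hy : Hyp g G L B) {b : ℂ → ℝ} (hbc : Continuous b) : Continuous (hb g b) :=
  den_cont hy (om_cont.mul (cl_cont.comp hbc)) (om_cl b)

lemma hb_bound (hy : Hyp g G L B) (b : ℂ → ℝ) (w : ℂ) :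
    |hb g b w| ≤ (cB B * G) * H (3/2) w := den_bound hy (om_cl b w)

lemma hb_lip (hy : Hyp g G L B) (b b' : ℂ → ℝ) (w : ℂ) :
    |hb g b w - hb g b' w| ≤ (cB B * L) * H (3/2) w * |b w - b' w| := by
  refine (den_lip hy (om_cl b w) (om_cl b' w)).trans ?_
  refine mul_le_mul_of_nonneg_left ?_ ?_
  · rw [← mul_sub, abs_mul, abs_of_pos (om_pos w), mul_div_cancel_left₀ _ (om_pos w).ne']
    exact cl_lip _ _
  · have := hy.hL
    have := H_nonneg (3/2) w
    unfold cB
    positivity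

lemma om_zero : om 0 = 1 := by simp [om]

lemma P_diff_le {h : ℂ → ℝ} {M : ℝ} (hb : ∀ w, |h w| ≤ M * H (3/2) w) (z : ℂ) :
    |(P h z - P h 0) / om z| ≤ 2 * (M * K) := by
  have h1 := P_norm_le hb z
  have h2 := P_norm_le hb 0
  rw [om_zero, mul_one] at h2
  have hM := M_nonneg hb
  have ho := om_pos z
  have ho1 := one_le_om z
  rw [abs_div, abs_of_pos ho, div_le_iff₀ ho]
  have h3 := abs_sub (P h z) (P h 0)
  have h4 : 0 ≤ M * K := mul_nonneg hM K_nonneg
  nlinarith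

/-- the map -/
noncomputable def T (hy : Hyp g G L B) (η : ℝ) (b : ℂ →ᵇ ℝ) : ℂ →ᵇ ℝ :=
  BoundedContinuousFunction.ofNormedAddCommGroup
    (fun z => η * ((P (hb g b) z - P (hb g b) 0) / om z))
    (by
      have h1 : Continuous (P (hb g b)) := by
        rw [continuous_iff_continuousAt]
        intro z
        exact (P_hasFDerivAt (hb_cont hy b.continuous) (hb_bound hy b) z).continuousAt
      exact continuous_const.mul ((h1.sub continuous_const).div om_cont fun z => (om_pos z).ne'))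
    (|η| * (2 * ((cB B * G) * K)))
    (by
      intro z
      rw [norm_mul, Real.norm_eq_abs, Real.norm_eq_abs]
      exact mul_le_mul_of_nonneg_left (P_diff_le (hb_bound hy b) z) (abs_nonneg _))

lemma T_apply (hy : Hyp g G L B) (η : ℝ) (b : ℂ →ᵇ ℝ) (z : ℂ) :
    T hy η b z = η * ((P (hb g b) z - P (hb g b) 0) / om z) := rfl

lemma T_lip (hy : Hyp g G L B) {η : ℝ} (hη : 0 ≤ η) (b b' : ℂ →ᵇ ℝ) :
    dist (T hy η b) (T hy η b') ≤ (η * (2 * ((cB B * L) * K))) * dist b b' := by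
  have hL := hy.hL
  have hcB : 0 ≤ cB B := by unfold cB; positivity
  have hC : 0 ≤ (η * (2 * ((cB B * L) * K))) * dist b b' := by
    have := K_nonneg
    positivity
  rw [BoundedContinuousFunction.dist_le hC]
  intro z
  rw [T_apply, T_apply, Real.dist_eq, ← mul_sub, ← sub_div, abs_mul, abs_of_nonneg hη]
  have hd : ∀ w, |(fun w => hb g b w - hb g b' w) w| ≤ ((cB B * L) * dist b b') * H (3/2) w := by
    intro w
    refine (hb_lip hy b b' w).trans ?_
    have h1 : |b w - b' w| ≤ dist b b' := by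
      rw [← Real.dist_eq]; exact BoundedContinuousFunction.dist_coe_le_dist w
    have h2 : 0 ≤ (cB B * L) * H (3/2) w := by
      have := H_nonneg (3/2) w
      positivity
    calc _ ≤ (cB B * L) * H (3/2) w * dist b b' := mul_le_mul_of_nonneg_left h1 h2
      _ = _ := by ring
  have hPs : ∀ z, P (fun w => hb g b w - hb g b' w) z = P (hb g b) z - P (hb g b') z := by
    intro z
    unfold P
    rw [← integral_sub (P_integrable (hb_cont hy b.continuous) (hb_bound hy b) z)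
      (P_integrable (hb_cont hy b'.continuous) (hb_bound hy b') z)]
    refine integral_congr_ae (Eventually.of_forall fun w => ?_)
    simp only
    ring
  have h3 := P_diff_le hd z
  rw [hPs, hPs] at h3
  have e : P (hb g b) z - P (hb g b) 0 - (P (hb g b') z - P (hb g b') 0) =
      P (hb g b) z - P (hb g b') z - (P (hb g b) 0 - P (hb g b') 0) := by ring
  rw [e]
  calc η * |(P (hb g b) z - P (hb g b') z - (P (hb g b) 0 - P (hb g b') 0)) / om z|
      ≤ η * (2 * ((cB B * L) * dist b b' * K)) := mul_le_mul_of_nonneg_left h3 hη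
    _ = _ := by ring

/-- Existence of the perturbation. -/
theorem exists_phi (hy : Hyp g G L B) :
    ∃ η₀ : ℝ, 0 < η₀ ∧ ∀ η, 0 < η → η ≤ η₀ → ∃ φ h : ℂ → ℝ, Continuous h ∧
      (∀ w, |h w| ≤ (cB B * G) * H (3/2) w) ∧ (∀ w, |φ w| ≤ om w) ∧
      (∀ w, h w = den g w (φ w)) ∧ (∀ z, φ z = η * (P h z - P h 0)) ∧
      η * ((cB B * G) * J) ≤ 1/2 := by
  have hcB : 0 ≤ cB B := by unfold cB; positivity
  have hL := hy.hL
  have hG := hy.hG
  have hK := K_nonneg
  have hJ := J_nonneg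
  set a1 : ℝ := 2 * ((cB B * L) * K) with ha1
  set a2 : ℝ := 2 * ((cB B * G) * K) with ha2
  set a3 : ℝ := (cB B * G) * J with ha3
  have p1 : 0 ≤ a1 := by positivity
  have p2 : 0 ≤ a2 := by positivity
  have p3 : 0 ≤ a3 := by positivity
  refine ⟨(2 * (a1 + a2 + a3 + 1))⁻¹, by positivity, fun η hη hηle => ?_⟩
  have hkey : η * (a1 + a2 + a3 + 1) ≤ 1/2 := by
    calc η * (a1 + a2 + a3 + 1) ≤ (2 * (a1 + a2 + a3 + 1))⁻¹ * (a1 + a2 + a3 + 1) :=
          mul_le_mul_of_nonneg_right hηle (by positivity)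
      _ = 1/2 := by
        have : a1 + a2 + a3 + 1 ≠ 0 := by positivity
        field_simp
  have k1 : η * a1 ≤ 1/2 := by nlinarith
  have k2 : η * a2 ≤ 1/2 := by nlinarith
  have k3 : η * a3 ≤ 1/2 := by nlinarith
  have hcon : ContractingWith (1/2 : NNReal) (T hy η) := by
    refine ⟨by rw [← NNReal.coe_lt_coe]; norm_num, LipschitzWith.of_dist_le_mul fun b b' => ?_⟩
    refine (T_lip hy hη.le b b').trans ?_
    have : ((1/2 : NNReal) : ℝ) = 1/2 := by norm_num
    rw [this]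
    exact mul_le_mul_of_nonneg_right k1 dist_nonneg
  set b : ℂ →ᵇ ℝ := ContractingWith.fixedPoint (T hy η) hcon with hbdef
  have hfix : T hy η b = b := hcon.fixedPoint_isFixedPt
  have hval : ∀ z, b z = η * ((P (hb g b) z - P (hb g b) 0) / om z) := by
    intro z
    conv_lhs => rw [← hfix]
    rfl
  have hb1 : ∀ z, |b z| ≤ 1 := by
    intro z
    rw [hval z, abs_mul, abs_of_pos hη]
    have h1 := P_diff_le (hb_bound hy b) z
    calc η * |(P (hb g b) z - P (hb g b) 0) / om z| ≤ η * a2 :=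
          mul_le_mul_of_nonneg_left h1 hη.le
      _ ≤ 1 := by linarith
  refine ⟨fun z => om z * b z, hb g b, hb_cont hy b.continuous, hb_bound hy b, ?_, ?_, ?_, k3⟩
  · intro w
    rw [abs_mul, abs_of_pos (om_pos w)]
    nlinarith [hb1 w, om_pos w]
  · intro w
    unfold hb
    rw [cl_eq (hb1 w)]
  · intro z
    simp only
    rw [hval z]
    have := (om_pos z).ne'
    field_simp

end N766.HS
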