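import Pool.Agent.N766.HS.Pot

/-! Second derivatives of the logarithmic potential of a `C¹` density. -/

open MeasureTheory Set Filter Topology

namespace N766.HS

variable {h : ℂ → ℝ} {M : ℝ}

/-- derivative of the Cauchy transform -/
noncomputable def DQ (h : ℂ → ℝ) (z : ℂ) : ℂ →L[ℝ] ℂ :=
  ∫ w, (fderiv ℝ h (z - w)).smulRight (w⁻¹ : ℂ)

lemma smulRight_norm (L : ℂ →L[ℝ] ℝ) (c : ℂ) : ‖L.smulRight c‖ = ‖L‖ * ‖c‖ :=
  ContinuousLinearMap.norm_smulRight_apply L c

lemma DQ_meas (hh : ContDiff ℝ 1 h) (z : ℂ) :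
    AEStronglyMeasurable (fun w : ℂ => (fderiv ℝ h (z - w)).smulRight (w⁻¹ : ℂ)) := by
  have h1 : Continuous fun w : ℂ => fderiv ℝ h (z - w) :=
    (hh.continuous_fderiv one_ne_zero).comp (continuous_const.sub continuous_id)
  have h2 : Continuous fun p : (ℂ →L[ℝ] ℝ) × ℂ => p.1.smulRight p.2 :=
    (ContinuousLinearMap.smulRightL ℝ ℂ ℂ).continuous₂
  exact h2.comp_aestronglyMeasurable₂ h1.aestronglyMeasurable measurable_inv.aestronglyMeasurable

lemma DQ_integrable (hh : ContDiff ℝ 1 h) (hd : ∀ w, ‖fderiv ℝ h w‖ ≤ M * H (3/2) w) (z : ℂ) :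
    Integrable (fun w : ℂ => (fderiv ℝ h (z - w)).smulRight (w⁻¹ : ℂ)) := by
  refine (ker_mul_H_integrable.const_mul (M * (2 + ‖z‖) ^ (3:ℝ))).mono' (DQ_meas hh z)
    (Eventually.of_forall fun w => ?_)
  rw [smulRight_norm, norm_inv]
  exact loc_dom (g := fun w => fderiv ℝ h w) hd z z w (Metric.mem_ball_self one_pos)

lemma Q_hasFDerivAt {M' : ℝ} (hh : ContDiff ℝ 1 h) (hb : ∀ w, |h w| ≤ M' * H (3/2) w)
    (hd : ∀ w, ‖fderiv ℝ h w‖ ≤ M * H (3/2) w) (z : ℂ) :
    HasFDerivAt (Q h) (DQ h z) z := by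
  refine hasFDerivAt_integral_of_dominated_of_fderiv_le
    (F := fun z w => (h (z - w)) • (w⁻¹ : ℂ))
    (F' := fun z w => (fderiv ℝ h (z - w)).smulRight (w⁻¹ : ℂ))
    (bound := fun w => (M * (2 + ‖z‖) ^ (3:ℝ)) * (‖w‖⁻¹ * H (3/2) w))
    (s := Metric.ball z 1) (Metric.ball_mem_nhds z one_pos) ?_ ?_ (DQ_meas hh z) ?_ ?_ ?_
  · exact Eventually.of_forall fun z => (Q_integrable hh.continuous hb z).aestronglyMeasurable
  · exact Q_integrable hh.continuous hb z
  · refine Eventually.of_forall fun w z' hz' => ?_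
    rw [smulRight_norm, norm_inv]
    exact loc_dom (g := fun w => fderiv ℝ h w) hd z z' w hz'
  · exact ker_mul_H_integrable.const_mul _
  · refine Eventually.of_forall fun w z' _ => ?_
    have h1 : HasFDerivAt h (fderiv ℝ h (z' - w)) (z' - w) :=
      (hh.differentiable one_ne_zero (z' - w)).hasFDerivAt
    have h2 : HasFDerivAt (fun z' : ℂ => h (z' - w)) (fderiv ℝ h (z' - w)) z' := by
      have h3 : HasFDerivAt (fun z' : ℂ => z' - w) (ContinuousLinearMap.id ℝ ℂ) z' :=
        (hasFDerivAt_id z').sub_const w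
      have h4 := h1.comp z' h3
      rw [ContinuousLinearMap.comp_id] at h4
      exact h4
    exact h2.smul_const (w⁻¹)

lemma DQ_cont (hh : ContDiff ℝ 1 h) (hd : ∀ w, ‖fderiv ℝ h w‖ ≤ M * H (3/2) w) :
    Continuous (DQ h) := by
  rw [continuous_iff_continuousAt]
  intro z₀
  refine continuousAt_of_dominated
    (bound := fun w => (M * (2 + ‖z₀‖) ^ (3:ℝ)) * (‖w‖⁻¹ * H (3/2) w)) ?_ ?_ ?_ ?_
  · exact Eventually.of_forall fun z => DQ_meas hh z
  · filter_upwards [Metric.ball_mem_nhds z₀ one_pos] with z hz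
    refine Eventually.of_forall fun w => ?_
    rw [smulRight_norm, norm_inv]
    exact loc_dom (g := fun w => fderiv ℝ h w) hd z₀ z w hz
  · exact ker_mul_H_integrable.const_mul _
  · refine Eventually.of_forall fun w => ?_
    have h1 : Continuous fun z : ℂ => fderiv ℝ h (z - w) :=
      (hh.continuous_fderiv one_ne_zero).comp (continuous_id.sub continuous_const)
    have h2 : Continuous fun L : (ℂ →L[ℝ] ℝ) => L.smulRight (w⁻¹ : ℂ) :=
      ((ContinuousLinearMap.smulRightL ℝ ℂ ℂ).continuous₂).comp (continuous_id.prodMk continuous_const)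
    exact (h2.comp h1).continuousAt

lemma DQ_apply (hh : ContDiff ℝ 1 h) (hd : ∀ w, ‖fderiv ℝ h w‖ ≤ M * H (3/2) w) (z δ : ℂ) :
    DQ h z δ = ∫ w, (fderiv ℝ h (z - w) δ) • (w⁻¹ : ℂ) := by
  unfold DQ
  rw [ContinuousLinearMap.integral_apply (DQ_integrable hh hd z)]
  rfl

/-- the divergence of the Cauchy transform is an integral against the radial derivative -/
lemma lap_eq (hh : ContDiff ℝ 1 h) (hd : ∀ w, ‖fderiv ℝ h w‖ ≤ M * H (3/2) w) (z : ℂ) :
    (DQ h z 1 + Complex.I * DQ h z Complex.I).re =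
      ∫ w, (fderiv ℝ h (z - w) w) / ‖w‖ ^ 2 := by
  have hi : ∀ δ : ℂ, Integrable fun w : ℂ => (fderiv ℝ h (z - w) δ) • (w⁻¹ : ℂ) := by
    intro δ
    have := (DQ_integrable hh hd z).apply_continuousLinearMap δ
    exact this
  rw [DQ_apply hh hd, DQ_apply hh hd, ← integral_const_mul, ← integral_add (hi 1)
    ((hi Complex.I).const_mul Complex.I)]
  have h1 : Integrable fun w : ℂ => (fderiv ℝ h (z - w) 1) • (w⁻¹ : ℂ) +
      Complex.I * ((fderiv ℝ h (z - w) Complex.I) • (w⁻¹ : ℂ)) :=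
    (hi 1).add ((hi Complex.I).const_mul Complex.I)
  have h2 := (ContinuousLinearMap.integral_comp_comm Complex.reCLM h1).symm
  simp only [Complex.reCLM_apply] at h2
  rw [h2]
  refine integral_congr_ae (Eventually.of_forall fun w => ?_)
  simp only
  have hw : fderiv ℝ h (z - w) w = w.re * fderiv ℝ h (z - w) 1
      + w.im * fderiv ℝ h (z - w) Complex.I := by
    have e : w = w.re • (1:ℂ) + w.im • Complex.I := by
      apply Complex.ext <;> simp
    conv_lhs => rw [e]
    rw [map_add, map_smul, map_smul]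
    simp
  rw [hw]
  simp only [Complex.add_re, Complex.smul_re, Complex.mul_re, Complex.smul_im, Complex.I_re,
    Complex.I_im, Complex.inv_re, Complex.inv_im, smul_eq_mul, Complex.sq_norm]
  ring

lemma H_decay (s : ℝ) (hs : 0 ≤ s) (z : ℂ) : H s z ≤ (1 + ‖z‖) ^ (-s) := by
  have h1 := one_le_re z
  have h2 := one_le_im z
  unfold H
  rw [← Real.mul_rpow (by positivity) (by positivity)]
  refine Real.rpow_le_rpow_of_nonpos (by positivity) ?_ (by linarith)
  have := Complex.norm_le_abs_re_add_abs_im z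
  nlinarith [abs_nonneg z.re, abs_nonneg z.im]

/-- radial integration -/
lemma radial (hh : ContDiff ℝ 1 h) (hb : ∀ w, |h w| ≤ M * H (3/2) w)
    (hd : ∀ w, ‖fderiv ℝ h w‖ ≤ M * H (3/2) w) (z : ℂ) :
    ∫ w, (fderiv ℝ h (z - w) w) / ‖w‖ ^ 2 = 2 * Real.pi * h z := by
  have hM := M_nonneg hb
  rw [← Complex.integral_comp_polarCoord_symm]
  -- the integrand in polar coordinates
  have hF : ∀ p ∈ polarCoord.target, p.1 • ((fderiv ℝ h (z - Complex.polarCoord.symm p)
      (Complex.polarCoord.symm p)) / ‖Complex.polarCoord.symm p‖ ^ 2) =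
      fderiv ℝ h (z - (p.1:ℂ) * Complex.exp (p.2 * Complex.I)) (Complex.exp (p.2 * Complex.I)) := by
    intro p hp
    have hp1 : 0 < p.1 := by
      simp only [polarCoord_target, mem_prod, mem_Ioi] at hp
      exact hp.1
    have e1 : Complex.polarCoord.symm p = (p.1:ℂ) * Complex.exp (p.2 * Complex.I) := by
      rw [Complex.polarCoord_symm_apply, Complex.exp_mul_I]
      push_cast
      ring
    rw [e1]
    have e2 : ‖(p.1:ℂ) * Complex.exp (p.2 * Complex.I)‖ = p.1 := by
      rw [norm_mul, Complex.norm_exp_ofReal_mul_I, Complex.norm_real, Real.norm_of_nonneg hp1.le,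
        mul_one]
    have e3 : fderiv ℝ h (z - (p.1:ℂ) * Complex.exp (p.2 * Complex.I))
        ((p.1:ℂ) * Complex.exp (p.2 * Complex.I)) =
        p.1 * fderiv ℝ h (z - (p.1:ℂ) * Complex.exp (p.2 * Complex.I))
        (Complex.exp (p.2 * Complex.I)) := by
      rw [← Complex.real_smul, map_smul, smul_eq_mul]
    rw [e2, e3, smul_eq_mul]
    field_simp
  rw [setIntegral_congr_fun (polarCoord.open_target.measurableSet) hF]
  set C : ℝ := M * (1 + ‖z‖) ^ (2 * (3/2) : ℝ) with hC
  have hC0 : 0 ≤ C := by positivity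
  have hGc : Continuous fun p : ℝ × ℝ => fderiv ℝ h (z - (p.1:ℂ) * Complex.exp (p.2 * Complex.I))
      (Complex.exp (p.2 * Complex.I)) := by
    have h1 : Continuous fun p : ℝ × ℝ => fderiv ℝ h (z - (p.1:ℂ) * Complex.exp (p.2 * Complex.I)) :=
      (hh.continuous_fderiv one_ne_zero).comp (by fun_prop)
    exact h1.clm_apply (by fun_prop)
  have hGb : ∀ r θ : ℝ, ‖fderiv ℝ h (z - (r:ℂ) * Complex.exp (θ * Complex.I))
      (Complex.exp (θ * Complex.I))‖ ≤ C * (1 + ‖r‖) ^ (-(3/2) : ℝ) := by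
    intro r θ
    have h1 := ContinuousLinearMap.le_opNorm
      (fderiv ℝ h (z - (r:ℂ) * Complex.exp (θ * Complex.I))) (Complex.exp (θ * Complex.I))
    rw [Complex.norm_exp_ofReal_mul_I, mul_one] at h1
    have h2 := H_sub_le (s := 3/2) (by norm_num) z ((r:ℂ) * Complex.exp (θ * Complex.I))
    have h3 := H_decay (3/2) (by norm_num) ((r:ℂ) * Complex.exp (θ * Complex.I))
    rw [norm_mul, Complex.norm_exp_ofReal_mul_I, mul_one, Complex.norm_real] at h3
    refine h1.trans ((hd _).trans ?_)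
    rw [hC, mul_assoc]
    refine mul_le_mul_of_nonneg_left (h2.trans ?_) hM
    exact mul_le_mul_of_nonneg_left h3 (by positivity)
  have hr1 : Integrable (fun x : ℝ => (1 + ‖x‖) ^ (-(3/2) : ℝ)) :=
    integrable_one_add_norm (by simp; norm_num)
  have hprod : Integrable (fun p : ℝ × ℝ => fderiv ℝ h (z - (p.1:ℂ) * Complex.exp (p.2 * Complex.I))
      (Complex.exp (p.2 * Complex.I)))
      ((volume.restrict (Ioi (0:ℝ))).prod (volume.restrict (Ioo (-Real.pi) Real.pi))) := by
    have h1 : Integrable (fun p : ℝ × ℝ => (fun x : ℝ => (1 + ‖x‖) ^ (-(3/2) : ℝ)) p.1 *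
        (fun _ : ℝ => C) p.2)
        ((volume.restrict (Ioi (0:ℝ))).prod (volume.restrict (Ioo (-Real.pi) Real.pi))) :=
      (hr1.restrict (s := Ioi (0:ℝ))).mul_prod (integrable_const C)
    refine h1.mono' hGc.aestronglyMeasurable (Eventually.of_forall fun p => ?_)
    exact (hGb p.1 p.2).trans (le_of_eq (mul_comm _ _))
  have e0 : (∫ p in polarCoord.target, fderiv ℝ h (z - (p.1:ℂ) * Complex.exp (p.2 * Complex.I))
      (Complex.exp (p.2 * Complex.I))) = ∫ p, fderiv ℝ h (z - (p.1:ℂ) * Complex.exp (p.2 * Complex.I))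
      (Complex.exp (p.2 * Complex.I))
      ∂((volume.restrict (Ioi (0:ℝ))).prod (volume.restrict (Ioo (-Real.pi) Real.pi))) := by
    rw [Measure.prod_restrict, ← Measure.volume_eq_prod]
    rfl
  rw [e0, integral_prod_symm _ hprod]
  have hin : ∀ θ : ℝ, ∫ r in Ioi (0:ℝ), fderiv ℝ h (z - (r:ℂ) * Complex.exp (θ * Complex.I))
      (Complex.exp (θ * Complex.I)) = h z := by
    intro θ
    set e : ℂ := Complex.exp (θ * Complex.I) with he
    have hen : ‖e‖ = 1 := Complex.norm_exp_ofReal_mul_I θ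
    have hder : ∀ r : ℝ, HasDerivAt (fun r : ℝ => -h (z - (r:ℂ) * e)) (fderiv ℝ h (z - (r:ℂ) * e) e) r := by
      intro r
      have h1 : HasFDerivAt h (fderiv ℝ h (z - (r:ℂ) * e)) (z - (r:ℂ) * e) :=
        (hh.differentiable one_ne_zero _).hasFDerivAt
      have h2 : HasDerivAt (fun r : ℝ => z - (r:ℂ) * e) (-e) r := by
        have h3 : HasDerivAt (fun r : ℝ => (r:ℂ)) 1 r := Complex.ofRealCLM.hasDerivAt
        simpa using (h3.mul_const e).const_sub z
      have h4 := (h1.comp_hasDerivAt r h2).neg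
      rw [map_neg, neg_neg] at h4
      exact h4
    have hint : IntegrableOn (fun r : ℝ => fderiv ℝ h (z - (r:ℂ) * e) e) (Ioi 0) := by
      refine (hr1.const_mul C).integrableOn.mono' ?_ (Eventually.of_forall fun r => hGb r θ)
      have : Continuous fun r : ℝ => fderiv ℝ h (z - (r:ℂ) * e) e :=
        hGc.comp (continuous_id.prodMk (continuous_const (y := θ)))
      exact this.aestronglyMeasurable
    have hlim : Tendsto (fun r : ℝ => -h (z - (r:ℂ) * e)) atTop (𝓝 0) := by
      have h1 : Tendsto (fun r : ℝ => C * (1 + r) ^ (-(3/2) : ℝ)) atTop (𝓝 (C * 0)) := by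
        refine Tendsto.const_mul C ?_
        exact (tendsto_rpow_neg_atTop (by norm_num)).comp (tendsto_atTop_add_const_left _ 1 tendsto_id)
      rw [mul_zero] at h1
      refine squeeze_zero_norm' ?_ h1
      filter_upwards [eventually_ge_atTop (0:ℝ)] with r hr
      rw [norm_neg, Real.norm_eq_abs]
      have h2 := H_sub_le (s := 3/2) (by norm_num) z ((r:ℂ) * e)
      have h3 := H_decay (3/2) (by norm_num) ((r:ℂ) * e)
      rw [norm_mul, hen, mul_one, Complex.norm_real, Real.norm_of_nonneg hr] at h3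
      refine (hb _).trans ?_
      rw [hC, mul_assoc]
      refine mul_le_mul_of_nonneg_left (h2.trans ?_) hM
      exact mul_le_mul_of_nonneg_left h3 (by positivity)
    have h5 := integral_Ioi_of_hasDerivAt_of_tendsto
      (hder 0).continuousAt.continuousWithinAt (fun r _ => hder r) hint hlim
    rw [h5]
    simp
  simp only [hin]
  rw [setIntegral_const]
  simp only [Real.volume_real_Ioo_of_le (show -Real.pi ≤ Real.pi by linarith [Real.pi_pos]),
    smul_eq_mul]
  ring

end N766.HS
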