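import Pool.Agent.N766.HS.Wt

/-! Logarithmic potentials on `ℂ` of continuous densities dominated by `H (3/2)`. -/

open MeasureTheory Set Filter Topology

namespace N766.HS

/-- log potential -/
noncomputable def P (h : ℂ → ℝ) (z : ℂ) : ℝ := ∫ w, Real.log ‖z - w‖ * h w

/-- Cauchy transform -/
noncomputable def Q (h : ℂ → ℝ) (z : ℂ) : ℂ := ∫ w, (h (z - w)) • (w⁻¹ : ℂ)

noncomputable def J : ℝ := (∫ w, kb w) + ∫ w, H (3/2) w

noncomputable def K : ℝ := J + 8 * ∫ w, om w * H (3/2) w

lemma J_nonneg : 0 ≤ J :=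
  add_nonneg (integral_nonneg kb_nonneg) (integral_nonneg (H_nonneg _))

lemma K_nonneg : 0 ≤ K := by
  refine add_nonneg J_nonneg (mul_nonneg (by norm_num) (integral_nonneg fun w => ?_))
  exact mul_nonneg (om_pos w).le (H_nonneg _ w)

/-- `re (q * δ)` as a functional -/
noncomputable def Lr (q : ℂ) : ℂ →L[ℝ] ℝ := Complex.reCLM.comp (ContinuousLinearMap.mul ℝ ℂ q)

@[simp] lemma Lr_apply (q δ : ℂ) : Lr q δ = (q * δ).re := rfl

variable {h : ℂ → ℝ} {M : ℝ}

lemma M_nonneg (hb : ∀ w, |h w| ≤ M * H (3/2) w) : 0 ≤ M := by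
  have h1 := (abs_nonneg (h 0)).trans (hb 0)
  exact nonneg_of_mul_nonneg_left h1 (H_pos _ _)

lemma Q_bound (hb : ∀ w, |h w| ≤ M * H (3/2) w) (z w : ℂ) :
    ‖(h (z - w)) • (w⁻¹ : ℂ)‖ ≤ M * (kb w + H (3/2) (z - w)) := by
  rw [norm_smul, norm_inv, Real.norm_eq_abs]
  have h1 := inv_norm_mul_le w (H_nonneg (3/2) (z - w)) (H_le_one (by norm_num) (z - w))
  calc |h (z - w)| * ‖w‖⁻¹ ≤ (M * H (3/2) (z - w)) * ‖w‖⁻¹ :=
        mul_le_mul_of_nonneg_right (hb _) (by positivity)
    _ = M * (‖w‖⁻¹ * H (3/2) (z - w)) := by ring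
    _ ≤ _ := mul_le_mul_of_nonneg_left h1 (M_nonneg hb)

lemma bound_integrable (M : ℝ) (z : ℂ) : Integrable (fun w => M * (kb w + H (3/2) (z - w))) :=
  (kb_integrable.add ((H_integrable (by norm_num)).comp_sub_left z)).const_mul M

lemma bound_integral (M : ℝ) (z : ℂ) : ∫ w, M * (kb w + H (3/2) (z - w)) = M * J := by
  rw [integral_const_mul, integral_add kb_integrable
    ((H_integrable (by norm_num)).comp_sub_left z)]
  rw [integral_sub_left_eq_self (fun w => H (3/2) w) volume z]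
  rfl

lemma Q_integrable (hc : Continuous h) (hb : ∀ w, |h w| ≤ M * H (3/2) w) (z : ℂ) :
    Integrable (fun w => (h (z - w)) • (w⁻¹ : ℂ)) :=
  (bound_integrable M z).mono'
    ((hc.comp (continuous_const.sub continuous_id)).aestronglyMeasurable.smul
      measurable_inv.aestronglyMeasurable)
    (Eventually.of_forall (Q_bound hb z))

lemma Q_norm_le (hb : ∀ w, |h w| ≤ M * H (3/2) w) (z : ℂ) :
    ‖Q h z‖ ≤ M * J := by
  rw [← bound_integral M z]
  exact norm_integral_le_of_norm_le (bound_integrable M z) (Eventually.of_forall (Q_bound hb z))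

lemma Q_eq (z : ℂ) : Q h z = ∫ w, (h w) • ((z - w)⁻¹ : ℂ) := by
  unfold Q
  rw [← integral_sub_left_eq_self (fun w => (h w) • ((z - w)⁻¹ : ℂ)) volume z]
  simp

lemma ker_mul_H_integrable : Integrable (fun w : ℂ => ‖w‖⁻¹ * H (3/2) w) := by
  refine (kb_integrable.add (H_integrable (s := 3/2) (by norm_num))).mono'
    ((measurable_norm.inv.aestronglyMeasurable).mul (H_cont _).aestronglyMeasurable)
    (Eventually.of_forall fun w => ?_)
  rw [Real.norm_of_nonneg (mul_nonneg (by positivity) (H_nonneg _ _))]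
  exact inv_norm_mul_le w (H_nonneg _ _) (H_le_one (by norm_num) w)

/-- local domination -/
lemma loc_dom {E : Type*} [NormedAddCommGroup E] {g : ℂ → E}
    (hb : ∀ w, ‖g w‖ ≤ M * H (3/2) w) (z₀ z w : ℂ) (hz : z ∈ Metric.ball z₀ 1) :
    ‖g (z - w)‖ * ‖w‖⁻¹ ≤ (M * (2 + ‖z₀‖) ^ (3:ℝ)) * (‖w‖⁻¹ * H (3/2) w) := by
  have hM : 0 ≤ M := by
    have h1 := (norm_nonneg (g 0)).trans (hb 0)
    exact nonneg_of_mul_nonneg_left h1 (H_pos _ _)
  have hz' : ‖z‖ ≤ 1 + ‖z₀‖ := by
    have h1 : ‖z - z₀‖ < 1 := by simpa [dist_eq_norm] using hz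
    have h2 := norm_add_le (z - z₀) z₀
    simp only [sub_add_cancel] at h2
    linarith
  have h1 := H_sub_le (s := 3/2) (by norm_num) z w
  have h2 : (1 + ‖z‖) ^ (2 * (3/2) : ℝ) ≤ (2 + ‖z₀‖) ^ (3:ℝ) := by
    norm_num
    have : 1 + ‖z‖ ≤ 2 + ‖z₀‖ := by linarith
    gcongr
  have h3 : H (3/2) (z - w) ≤ (2 + ‖z₀‖) ^ (3:ℝ) * H (3/2) w :=
    h1.trans (mul_le_mul_of_nonneg_right h2 (H_nonneg _ _))
  calc ‖g (z - w)‖ * ‖w‖⁻¹ ≤ (M * ((2 + ‖z₀‖) ^ (3:ℝ) * H (3/2) w)) * ‖w‖⁻¹ := by
        refine mul_le_mul_of_nonneg_right ((hb _).trans ?_) (by positivity)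
        exact mul_le_mul_of_nonneg_left h3 hM
    _ = _ := by ring

lemma Q_cont (hc : Continuous h) (hb : ∀ w, |h w| ≤ M * H (3/2) w) : Continuous (Q h) := by
  rw [continuous_iff_continuousAt]
  intro z₀
  refine continuousAt_of_dominated
    (bound := fun w => (M * (2 + ‖z₀‖) ^ (3:ℝ)) * (‖w‖⁻¹ * H (3/2) w)) ?_ ?_ ?_ ?_
  · exact Eventually.of_forall fun z => (Q_integrable hc hb z).aestronglyMeasurable
  · filter_upwards [Metric.ball_mem_nhds z₀ one_pos] with z hz
    refine Eventually.of_forall fun w => ?_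
    rw [norm_smul, norm_inv]
    exact loc_dom (g := h) hb z₀ z w hz
  · exact ker_mul_H_integrable.const_mul _
  · refine Eventually.of_forall fun w => ?_
    have : Continuous fun z => (h (z - w)) • (w⁻¹ : ℂ) := by fun_prop
    exact this.continuousAt

lemma abs_log_le {x : ℝ} (hx : 0 ≤ x) : |Real.log x| ≤ x⁻¹ + 8 * x ^ ((1:ℝ)/8) := by
  rcases hx.eq_or_lt with rfl | hx0
  · norm_num
  · have h1 := Real.log_le_rpow_div hx (ε := 1/8) (by norm_num)
    have h2 : -Real.log x ≤ x⁻¹ := by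
      rw [← Real.log_inv]
      have := Real.log_le_sub_one_of_pos (inv_pos.2 hx0)
      linarith
    have h3 : 0 ≤ x⁻¹ := by positivity
    have h4 : 0 ≤ x ^ ((1:ℝ)/8) := by positivity
    rw [abs_le]
    constructor
    · linarith
    · linarith [show x ^ ((1:ℝ)/8) / (1/8) = 8 * x ^ ((1:ℝ)/8) by ring]

lemma rpow_sub_le (z w : ℂ) : ‖z - w‖ ^ ((1:ℝ)/8) ≤ om z * om w := by
  unfold om
  rw [← Real.mul_rpow (by positivity) (by positivity)]
  refine Real.rpow_le_rpow (by positivity) ?_ (by norm_num)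
  have := norm_sub_le z w
  nlinarith [norm_nonneg z, norm_nonneg w]

lemma kb_sub_integrable (z : ℂ) : Integrable (fun w => kb (z - w)) := kb_integrable.comp_sub_left z

lemma P_bound (hb : ∀ w, |h w| ≤ M * H (3/2) w) (z w : ℂ) :
    ‖Real.log ‖z - w‖ * h w‖ ≤ M * ((kb (z - w) + H (3/2) w) + 8 * om z * (om w * H (3/2) w)) := by
  rw [norm_mul, Real.norm_eq_abs, Real.norm_eq_abs]
  have hM := M_nonneg hb
  have h1 := abs_log_le (norm_nonneg (z - w))
  have h2 := rpow_sub_le z w
  have h3 := inv_norm_mul_le (z - w) (H_nonneg (3/2) w) (H_le_one (by norm_num) w)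
  have h4 := H_nonneg (3/2) w
  calc |Real.log ‖z - w‖| * |h w|
      ≤ (‖z - w‖⁻¹ + 8 * (om z * om w)) * (M * H (3/2) w) := by
        refine mul_le_mul (h1.trans (by linarith)) (hb w) (abs_nonneg _) ?_
        have := om_pos z
        have := om_pos w
        positivity
    _ = M * (‖z - w‖⁻¹ * H (3/2) w + 8 * om z * (om w * H (3/2) w)) := by ring
    _ ≤ _ := by
        refine mul_le_mul_of_nonneg_left ?_ hM
        linarith

lemma Pbound_integrable (M : ℝ) (z : ℂ) :
    Integrable (fun w => M * ((kb (z - w) + H (3/2) w) + 8 * om z * (om w * H (3/2) w))) :=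
  (((kb_sub_integrable z).add (H_integrable (by norm_num))).add
    (om_mul_H_integrable.const_mul (8 * om z))).const_mul M

lemma P_integrable (hc : Continuous h) (hb : ∀ w, |h w| ≤ M * H (3/2) w) (z : ℂ) :
    Integrable (fun w => Real.log ‖z - w‖ * h w) := by
  refine (Pbound_integrable M z).mono' ?_ (Eventually.of_forall (P_bound hb z))
  refine AEStronglyMeasurable.mul ?_ hc.aestronglyMeasurable
  have : Measurable (fun w : ℂ => Real.log ‖z - w‖) := by fun_prop
  exact this.aestronglyMeasurable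

lemma P_norm_le (hb : ∀ w, |h w| ≤ M * H (3/2) w) (z : ℂ) :
    |P h z| ≤ M * K * om z := by
  have hM := M_nonneg hb
  have h1 : ‖P h z‖ ≤ ∫ w, M * ((kb (z - w) + H (3/2) w) + 8 * om z * (om w * H (3/2) w)) :=
    norm_integral_le_of_norm_le (Pbound_integrable M z) (Eventually.of_forall (P_bound hb z))
  have i1 : Integrable (fun w => kb (z - w) + H (3/2) w) :=
    (kb_sub_integrable z).add (H_integrable (by norm_num))
  have i2 : Integrable (fun w => 8 * om z * (om w * H (3/2) w)) :=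
    om_mul_H_integrable.const_mul (8 * om z)
  rw [integral_const_mul, integral_add i1 i2, integral_add (kb_sub_integrable z)
    (H_integrable (by norm_num)), integral_const_mul,
    integral_sub_left_eq_self (fun w => kb w) volume z] at h1
  have h2 : (∫ w, kb w) + ∫ w, H (3/2) w = J := rfl
  rw [h2] at h1
  refine h1.trans ?_
  have h3 : 0 ≤ ∫ w, om w * H (3/2) w :=
    integral_nonneg fun w => mul_nonneg (om_pos w).le (H_nonneg _ w)
  have h5 : J + 8 * om z * (∫ w, om w * H (3/2) w) ≤ K * om z := by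
    unfold K
    nlinarith [one_le_om z, J_nonneg, mul_nonneg J_nonneg (sub_nonneg.2 (one_le_om z))]
  calc _ ≤ M * (K * om z) := mul_le_mul_of_nonneg_left h5 hM
    _ = _ := by ring

/-- The difference of the log potential is the integral of the Cauchy transform. -/
lemma log_seg (a δ : ℂ) (hne : ∀ t ∈ Icc (0:ℝ) 1, a + t • δ ≠ 0) :
    ∫ t in (0:ℝ)..1, (((a + t • δ)⁻¹) * δ).re = Real.log ‖a + δ‖ - Real.log ‖a‖ := by
  have hd : ∀ t ∈ uIcc (0:ℝ) 1, HasDerivAt (fun t : ℝ => Real.log ‖a + t • δ‖)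
      ((((a + t • δ)⁻¹) * δ).re) t := by
    intro t ht
    rw [uIcc_of_le zero_le_one] at ht
    have hn := hne t ht
    have hns : Complex.normSq (a + t • δ) ≠ 0 := (Complex.normSq_pos.2 hn).ne'
    have e : (fun t : ℝ => Real.log ‖a + t • δ‖) =
        fun t : ℝ => (1/2) * Real.log ((a.re + t * δ.re)^2 + (a.im + t * δ.im)^2) := by
      funext s
      have : ‖a + s • δ‖ = Real.sqrt ((a.re + s * δ.re)^2 + (a.im + s * δ.im)^2) := by
        rw [Complex.norm_def, Complex.normSq_apply]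
        congr 1
        simp
        ring
      rw [this, Real.log_sqrt (by positivity)]
      ring
    rw [e]
    have hns' : (a.re + t * δ.re)^2 + (a.im + t * δ.im)^2 ≠ 0 := by
      have : Complex.normSq (a + t • δ) = (a.re + t * δ.re)^2 + (a.im + t * δ.im)^2 := by
        rw [Complex.normSq_apply]; simp; ring
      rwa [← this]
    have h1 : HasDerivAt (fun s : ℝ => (a.re + s * δ.re)^2 + (a.im + s * δ.im)^2)
        (2 * (a.re + t * δ.re) * δ.re + 2 * (a.im + t * δ.im) * δ.im) t := by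
      have h2 : HasDerivAt (fun s : ℝ => a.re + s * δ.re) δ.re t := by
        simpa using ((hasDerivAt_id t).mul_const δ.re).const_add a.re
      have h3 : HasDerivAt (fun s : ℝ => a.im + s * δ.im) δ.im t := by
        simpa using ((hasDerivAt_id t).mul_const δ.im).const_add a.im
      refine ((h2.fun_pow 2).fun_add (h3.fun_pow 2)).congr_deriv ?_
      simp
    refine ((h1.log hns').const_mul (1/2)).congr_deriv ?_
    symm
    rw [Complex.mul_re, Complex.inv_re, Complex.inv_im, Complex.normSq_apply]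
    simp only [Complex.add_re, Complex.add_im, Complex.real_smul, Complex.mul_re, Complex.mul_im,
      Complex.ofReal_re, Complex.ofReal_im, zero_mul, sub_zero, add_zero]
    have : (a.re + t * δ.re) * (a.re + t * δ.re) + (a.im + t * δ.im) * (a.im + t * δ.im)
        = (a.re + t * δ.re)^2 + (a.im + t * δ.im)^2 := by ring
    rw [this]
    field_simp
    ring
  have hi : ContinuousOn (fun t : ℝ => (((a + t • δ)⁻¹) * δ).re) (uIcc 0 1) := by
    rw [uIcc_of_le zero_le_one]
    refine Complex.continuous_re.comp_continuousOn (ContinuousOn.mul (ContinuousOn.inv₀ ?_ hne)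
      continuousOn_const)
    fun_prop
  rw [intervalIntegral.integral_eq_sub_of_hasDerivAt hd hi.intervalIntegrable]
  simp

lemma ae_ne_line (z δ : ℂ) : ∀ᵐ w : ℂ, ∀ t : ℝ, (z - w) + t • δ ≠ 0 ∨ δ = 0 := by
  by_cases hδ : δ = 0
  · exact Eventually.of_forall fun w t => Or.inr hδ
  · let S : AffineSubspace ℝ ℂ := AffineSubspace.mk' z (Submodule.span ℝ {δ})
    have hS : S ≠ ⊤ := by
      intro h
      have h1 : S.direction = ⊤ := by rw [h]; exact AffineSubspace.direction_top ℝ ℂ ℂ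
      rw [AffineSubspace.direction_mk'] at h1
      have h2 : Module.finrank ℝ (Submodule.span ℝ {δ}) = Module.finrank ℝ ℂ := by
        rw [h1]; exact finrank_top ℝ ℂ
      rw [finrank_span_singleton hδ, Complex.finrank_real_complex] at h2
      norm_num at h2
    have h0 := Measure.addHaar_affineSubspace (volume : Measure ℂ) S hS
    have h1 : ∀ᵐ w : ℂ, w ∉ (S : Set ℂ) := measure_eq_zero_iff_ae_notMem.1 h0
    filter_upwards [h1] with w hw t
    left
    intro hc
    apply hw
    have : w = t • δ + z := by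
      have : w = z + t • δ := by linear_combination (-1 : ℂ) * hc
      rw [this]; ring
    rw [SetLike.mem_coe, AffineSubspace.mem_mk', this]
    simp only [vsub_eq_sub, add_sub_cancel_right]
    exact Submodule.smul_mem _ _ (Submodule.mem_span_singleton_self δ)

lemma Q_re_mul (hc : Continuous h) (hb : ∀ w, |h w| ≤ M * H (3/2) w) (z δ : ℂ) :
    (Q h z * δ).re = ∫ w, h w * (((z - w)⁻¹) * δ).re := by
  have hi : Integrable (fun w => (h w) • ((z - w)⁻¹ : ℂ)) := by
    have := (Q_integrable hc hb z).comp_sub_left z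
    refine this.congr (Eventually.of_forall fun w => ?_)
    simp
  have h1 : ((Complex.reCLM.comp ((ContinuousLinearMap.mul ℝ ℂ).flip δ)) (Q h z)) =
      ∫ w, (Complex.reCLM.comp ((ContinuousLinearMap.mul ℝ ℂ).flip δ)) ((h w) • ((z - w)⁻¹ : ℂ)) := by
    rw [Q_eq]
    exact (ContinuousLinearMap.integral_comp_comm _ hi).symm
  have h2 : ((Complex.reCLM.comp ((ContinuousLinearMap.mul ℝ ℂ).flip δ)) (Q h z)) =
      (Q h z * δ).re := rfl
  rw [← h2, h1]
  refine integral_congr_ae (Eventually.of_forall fun w => ?_)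
  have h3 : (Complex.reCLM.comp ((ContinuousLinearMap.mul ℝ ℂ).flip δ)) ((h w) • ((z - w)⁻¹ : ℂ))
      = (((h w) • ((z - w)⁻¹ : ℂ)) * δ).re := rfl
  beta_reduce
  rw [h3, smul_mul_assoc, Complex.smul_re, smul_eq_mul]

lemma P_sub (hc : Continuous h) (hb : ∀ w, |h w| ≤ M * H (3/2) w) (z δ : ℂ) :
    P h (z + δ) - P h z = ∫ t in (0:ℝ)..1, (Q h (z + t • δ) * δ).re := by
  have hM := M_nonneg hb
  let μ : Measure ℝ := volume.restrict (Ioc (0:ℝ) 1)
  have hmeas : Measurable (fun p : ℝ × ℂ => h p.2 * (((z + p.1 • δ - p.2)⁻¹) * δ).re) := by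
    have := hc.measurable
    fun_prop
  have hpt : ∀ (z' w : ℂ), ‖h w * (((z' - w)⁻¹) * δ).re‖ ≤
      (M * (kb (z' - w) + H (3/2) w)) * ‖δ‖ := by
    intro z' w
    have h1 := inv_norm_mul_le (z' - w) (H_nonneg (3/2) w) (H_le_one (by norm_num) w)
    rw [norm_mul, Real.norm_eq_abs, Real.norm_eq_abs]
    have h2 : |(((z' - w)⁻¹) * δ).re| ≤ ‖z' - w‖⁻¹ * ‖δ‖ := by
      refine (Complex.abs_re_le_norm _).trans ?_
      rw [norm_mul, norm_inv]
    calc |h w| * |(((z' - w)⁻¹) * δ).re| ≤ (M * H (3/2) w) * (‖z' - w‖⁻¹ * ‖δ‖) :=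
          mul_le_mul (hb w) h2 (abs_nonneg _) (mul_nonneg hM (H_nonneg _ _))
      _ = (M * (‖z' - w‖⁻¹ * H (3/2) w)) * ‖δ‖ := by ring
      _ ≤ _ := by
        refine mul_le_mul_of_nonneg_right ?_ (norm_nonneg _)
        exact mul_le_mul_of_nonneg_left h1 hM
  have hgi : ∀ z' : ℂ, Integrable (fun w => (M * (kb (z' - w) + H (3/2) w)) * ‖δ‖) := by
    intro z'
    exact (((kb_sub_integrable z').add (H_integrable (by norm_num))).const_mul M).mul_const _
  have hgint : ∀ z' : ℂ, ∫ w, (M * (kb (z' - w) + H (3/2) w)) * ‖δ‖ = M * J * ‖δ‖ := by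
    intro z'
    rw [integral_mul_const, integral_const_mul, integral_add (kb_sub_integrable z')
      (H_integrable (by norm_num)), integral_sub_left_eq_self (fun w => kb w) volume z']
    rfl
  have hwi : ∀ z' : ℂ, Integrable (fun w => h w * (((z' - w)⁻¹) * δ).re) := by
    intro z'
    refine (hgi z').mono' ?_ (Eventually.of_forall (hpt z'))
    have : Measurable (fun w : ℂ => h w * (((z' - w)⁻¹) * δ).re) := by
      have := hc.measurable
      fun_prop
    exact this.aestronglyMeasurable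
  have hprod : Integrable (fun p : ℝ × ℂ => h p.2 * (((z + p.1 • δ - p.2)⁻¹) * δ).re)
      (μ.prod volume) := by
    rw [integrable_prod_iff hmeas.aestronglyMeasurable]
    refine ⟨Eventually.of_forall fun t => hwi (z + t • δ), ?_⟩
    refine Integrable.mono' (g := fun _ => M * J * ‖δ‖) (integrable_const _)
      (hmeas.aestronglyMeasurable.norm.integral_prod_right') (Eventually.of_forall fun t => ?_)
    rw [Real.norm_of_nonneg (integral_nonneg fun w => norm_nonneg _), ← hgint (z + t • δ)]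
    exact integral_mono (hwi (z + t • δ)).norm (hgi (z + t • δ)) (hpt (z + t • δ))
  have hswap := integral_integral_swap (f := fun (t : ℝ) (w : ℂ) =>
    h w * (((z + t • δ - w)⁻¹) * δ).re) hprod
  rw [intervalIntegral.integral_of_le zero_le_one]
  have e1 : ∫ t in Ioc (0:ℝ) 1, (Q h (z + t • δ) * δ).re =
      ∫ t, ∫ w, h w * (((z + t • δ - w)⁻¹) * δ).re ∂volume ∂μ := by
    refine integral_congr_ae (Eventually.of_forall fun t => ?_)
    exact Q_re_mul hc hb (z + t • δ) δ
  rw [e1, hswap]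
  unfold P
  rw [← integral_sub (P_integrable hc hb _) (P_integrable hc hb _)]
  refine integral_congr_ae ?_
  filter_upwards [ae_ne_line z δ] with w hw
  rw [integral_const_mul]
  by_cases hδ : δ = 0
  · simp [hδ]
  · have hne : ∀ t ∈ Icc (0:ℝ) 1, (z - w) + t • δ ≠ 0 := fun t _ => (hw t).resolve_right hδ
    have h1 := log_seg (z - w) δ hne
    rw [intervalIntegral.integral_of_le zero_le_one] at h1
    have h2 : ∫ t in Ioc (0:ℝ) 1, (((z + t • δ - w)⁻¹) * δ).re =
        ∫ t in Ioc (0:ℝ) 1, ((((z - w) + t • δ)⁻¹) * δ).re := by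
      refine integral_congr_ae (Eventually.of_forall fun t => ?_)
      simp only
      congr 3
      ring
    change _ = h w * ∫ t in Ioc (0:ℝ) 1, (((z + t • δ - w)⁻¹) * δ).re
    rw [h2, h1, show z + δ - w = z - w + δ by ring]
    ring

lemma P_hasFDerivAt (hc : Continuous h) (hb : ∀ w, |h w| ≤ M * H (3/2) w) (z : ℂ) :
    HasFDerivAt (P h) (Lr (Q h z)) z := by
  rw [hasFDerivAt_iff_isLittleO_nhds_zero, Asymptotics.isLittleO_iff]
  intro c hcpos
  have hQ := (Q_cont hc hb).continuousAt (x := z)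
  rw [Metric.continuousAt_iff] at hQ
  obtain ⟨r, hr, hQr⟩ := hQ c hcpos
  filter_upwards [Metric.ball_mem_nhds (0:ℂ) hr] with δ hδ
  have hδ' : ‖δ‖ < r := by simpa using hδ
  rw [P_sub hc hb, Lr_apply]
  have hcont : Continuous fun t : ℝ => (Q h (z + t • δ) * δ).re := by
    have := Q_cont hc hb
    fun_prop
  have e1 : (Q h z * δ).re = ∫ t in (0:ℝ)..1, (Q h z * δ).re := by simp
  rw [e1, ← intervalIntegral.integral_sub (hcont.intervalIntegrable _ _)
    (continuous_const.intervalIntegrable _ _)]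
  have h1 : ∀ t ∈ uIoc (0:ℝ) 1, ‖(Q h (z + t • δ) * δ).re - (Q h z * δ).re‖ ≤ c * ‖δ‖ := by
    intro t ht
    rw [uIoc_of_le zero_le_one] at ht
    have h2 : ‖(z + t • δ) - z‖ < r := by
      rw [add_sub_cancel_left, norm_smul, Real.norm_of_nonneg ht.1.le]
      nlinarith [norm_nonneg δ, ht.2]
    have h3 := (hQr (show dist (z + t • δ) z < r by rwa [dist_eq_norm])).le
    rw [dist_eq_norm] at h3
    rw [← Complex.sub_re, ← sub_mul]
    refine (Complex.abs_re_le_norm _).trans ?_
    rw [norm_mul]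
    exact mul_le_mul_of_nonneg_right h3 (norm_nonneg _)
  have h4 := intervalIntegral.norm_integral_le_of_norm_le_const h1
  simpa using h4

end N766.HS
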