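import Pool.Agent.N766.HS.Fix

/-! Regularity of the perturbation and the weighted equation in the `ζ`-plane. -/

open MeasureTheory Set Filter Topology

namespace N766.HS

/-- The data produced by the contraction. -/
structure Dat (g : ℝ → ℝ) (G L B η : ℝ) (φ h : ℂ → ℝ) : Prop where
  hy : Hyp g G L B
  hη : 0 < η
  hc : Continuous h
  hbd : ∀ w, |h w| ≤ (cB B * G) * H (3/2) w
  hom : ∀ w, |φ w| ≤ om w
  hden : ∀ w, h w = den g w (φ w)
  hφ : ∀ z, φ z = η * (P h z - P h 0)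
  hsm : η * ((cB B * G) * J) ≤ 1/2

variable {g : ℝ → ℝ} {G L B η : ℝ} {φ h : ℂ → ℝ}

/-- complex gradient of `φ` -/
noncomputable def q (η : ℝ) (h : ℂ → ℝ) (z : ℂ) : ℂ := η • Q h z

lemma Lr_smul (η : ℝ) (c : ℂ) : Lr (η • c) = η • Lr c := by
  ext δ
  simp
  ring

lemma Lr_cont : Continuous Lr := by
  unfold Lr
  have h1 : Continuous fun q : ℂ => ContinuousLinearMap.mul ℝ ℂ q :=
    (ContinuousLinearMap.mul ℝ ℂ).continuous
  exact h1.const_clm_comp _

lemma φ_deriv (d : Dat g G L B η φ h) (z : ℂ) : HasFDerivAt φ (Lr (q η h z)) z := by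
  have h1 := ((P_hasFDerivAt d.hc d.hbd z).sub_const (P h 0)).const_mul η
  have e : φ = fun z => η * (P h z - P h 0) := funext d.hφ
  rw [e]
  unfold q
  rw [Lr_smul]
  exact h1

lemma q_cont (d : Dat g G L B η φ h) : Continuous (q η h) := (Q_cont d.hc d.hbd).const_smul η

lemma q_norm (d : Dat g G L B η φ h) (z : ℂ) : ‖q η h z‖ ≤ 1/2 := by
  unfold q
  rw [norm_smul, Real.norm_of_nonneg d.hη.le]
  exact (mul_le_mul_of_nonneg_left (Q_norm_le d.hbd z) d.hη.le).trans d.hsm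

lemma φ_cd (d : Dat g G L B η φ h) : ContDiff ℝ 1 φ := by
  rw [contDiff_one_iff_fderiv]
  refine ⟨fun z => (φ_deriv d z).differentiableAt, ?_⟩
  have e : fderiv ℝ φ = fun z => Lr (q η h z) := funext fun z => (φ_deriv d z).fderiv
  rw [e]
  exact Lr_cont.comp (q_cont d)

lemma Lr_norm_le (c : ℂ) : ‖Lr c‖ ≤ ‖c‖ := by
  refine ContinuousLinearMap.opNorm_le_bound _ (norm_nonneg _) fun δ => ?_
  rw [Lr_apply, Real.norm_eq_abs]
  refine (Complex.abs_re_le_norm _).trans ?_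
  rw [norm_mul]

lemma h_small (d : Dat g G L B η φ h) {w : ℂ} (hw : ‖w‖ < 1) : h w = 0 := by
  rw [d.hden]
  exact den_small d.hy hw (d.hom w)

lemma normsq_inv_deriv {w : ℂ} (hw : w ≠ 0) :
    HasFDerivAt (fun w : ℂ => (‖w‖ ^ 2)⁻¹) (-(((‖w‖ ^ 2) ^ 2)⁻¹) • (2 • innerSL ℝ w)) w := by
  have h1 : HasFDerivAt (fun w : ℂ => ‖w‖ ^ 2) (2 • innerSL ℝ w) w :=
    (hasStrictFDerivAt_norm_sq w).hasFDerivAt
  have hn : ‖w‖ ^ 2 ≠ 0 := by
    have := norm_pos_iff.2 hw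
    positivity
  have h2 := (hasDerivAt_inv hn).comp_hasFDerivAt w h1
  exact h2

lemma h_deriv (d : Dat g G L B η φ h) (hg : ContDiff ℝ 1 g) {w : ℂ} (hw : w ≠ 0) :
    HasFDerivAt h ((‖w‖ ^ 2)⁻¹ • (deriv g (w.re + φ w) • (Complex.reCLM + Lr (q η h w))) +
      g (w.re + φ w) • (-(((‖w‖ ^ 2) ^ 2)⁻¹) • (2 • innerSL ℝ w))) w := by
  have h1 : HasFDerivAt (fun w : ℂ => w.re + φ w) (Complex.reCLM + Lr (q η h w)) w :=
    (Complex.reCLM.hasFDerivAt).add (φ_deriv d w)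
  have h2 : HasDerivAt g (deriv g (w.re + φ w)) (w.re + φ w) :=
    (hg.differentiable one_ne_zero _).hasDerivAt
  have h3 := h2.comp_hasFDerivAt w h1
  have h4 := (normsq_inv_deriv hw).mul h3
  exact h4.congr_of_eventuallyEq (Eventually.of_forall fun w => by rw [d.hden]; rfl)

lemma h_cd (d : Dat g G L B η φ h) (hg : ContDiff ℝ 1 g) : ContDiff ℝ 1 h := by
  rw [contDiff_iff_contDiffAt]
  intro w
  by_cases hw : w = 0
  · have h0 : h =ᶠ[𝓝 w] fun _ => 0 := by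
      filter_upwards [Metric.ball_mem_nhds w one_pos] with z hz
      rw [hw, mem_ball_zero_iff] at hz
      exact h_small d hz
    exact contDiffAt_const.congr_of_eventuallyEq h0
  · have e : h = fun w => (‖w‖ ^ 2)⁻¹ * g (w.re + φ w) := by
      funext w; rw [d.hden]; rfl
    rw [e]
    have h1 : ContDiffAt ℝ 1 (fun w : ℂ => (‖w‖ ^ 2)⁻¹) w := by
      refine ContDiffAt.inv (contDiff_norm_sq ℝ).contDiffAt ?_
      have := norm_pos_iff.2 hw
      positivity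
    have h2 : ContDiff ℝ 1 (fun w : ℂ => w.re + φ w) := Complex.reCLM.contDiff.add (φ_cd d)
    exact h1.mul (hg.comp h2).contDiffAt

lemma deriv_g_bd (hy : Hyp g G L B) (s : ℝ) : |deriv g s| ≤ L := by
  have : LipschitzWith ⟨L, hy.hL⟩ g := by
    refine LipschitzWith.of_dist_le_mul fun s t => ?_
    rw [Real.dist_eq, Real.dist_eq]
    exact hy.lip s t
  exact norm_deriv_le_of_lipschitz this

lemma deriv_g_zero (hy : Hyp g G L B) {s : ℝ} (hs : s < 4 ∨ B < s) : deriv g s = 0 := by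
  have h0 : g =ᶠ[𝓝 s] fun _ => 0 := by
    rcases hs with h | h
    · filter_upwards [Iio_mem_nhds h] with t ht
      exact hy.lo t ht
    · filter_upwards [Ioi_mem_nhds h] with t ht
      exact hy.hi t ht
  rw [h0.deriv_eq]
  simp

/-- the common constant -/
noncomputable def cM (G L B : ℝ) : ℝ := cB B * (2 * G + 2 * L)

lemma h_bd (d : Dat g G L B η φ h) (w : ℂ) : |h w| ≤ cM G L B * H (3/2) w := by
  refine (d.hbd w).trans (mul_le_mul_of_nonneg_right ?_ (H_nonneg _ _))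
  unfold cM
  refine mul_le_mul_of_nonneg_left ?_ (by unfold cB; positivity)
  linarith [d.hy.hG, d.hy.hL]

lemma h_fderiv_bd (d : Dat g G L B η φ h) (hg : ContDiff ℝ 1 g) (w : ℂ) :
    ‖fderiv ℝ h w‖ ≤ cM G L B * H (3/2) w := by
  have hG := d.hy.hG
  have hL := d.hy.hL
  have hcB : 0 ≤ cB B := by unfold cB; positivity
  have hR : 0 ≤ cM G L B * H (3/2) w := by
    have := H_nonneg (3/2) w
    unfold cM
    positivity
  rcases lt_or_ge ‖w‖ 1 with hw | hw
  · have h0 : h =ᶠ[𝓝 w] fun _ => 0 := by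
      have hmem : Metric.ball (0:ℂ) 1 ∈ 𝓝 w :=
        Metric.isOpen_ball.mem_nhds (by simpa using hw)
      filter_upwards [hmem] with z hz
      rw [mem_ball_zero_iff] at hz
      exact h_small d hz
    rw [h0.fderiv_eq]
    simpa using hR
  · have hw0 : w ≠ 0 := by
      intro h0; rw [h0, norm_zero] at hw; linarith
    rw [(h_deriv d hg hw0).fderiv]
    by_cases hre : |w.re| ≤ B + om w
    · have hk := weight_key d.hy.hB w hw hre
      have hk' : (‖w‖ ^ 2)⁻¹ ≤ cB B * H (3/2) w := by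
        refine le_trans ?_ hk
        exact le_mul_of_one_le_right (by positivity) (one_le_om w)
      have n1 : ‖(‖w‖ ^ 2)⁻¹ • (deriv g (w.re + φ w) • (Complex.reCLM + Lr (q η h w)))‖ ≤
          (‖w‖ ^ 2)⁻¹ * (L * 2) := by
        rw [norm_smul, norm_smul, Real.norm_of_nonneg (by positivity : (0:ℝ) ≤ (‖w‖ ^ 2)⁻¹)]
        refine mul_le_mul_of_nonneg_left ?_ (by positivity)
        refine mul_le_mul (deriv_g_bd d.hy _) ?_ (norm_nonneg _) hL
        have a1 : ‖Complex.reCLM‖ = 1 := Complex.reCLM_norm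
        have a2 := (Lr_norm_le (q η h w)).trans (q_norm d w)
        have a3 := norm_add_le Complex.reCLM (Lr (q η h w))
        linarith
      have n2 : ‖g (w.re + φ w) • (-(((‖w‖ ^ 2) ^ 2)⁻¹) • (2 • innerSL ℝ w))‖ ≤
          (‖w‖ ^ 2)⁻¹ * (G * 2) := by
        rw [norm_smul, norm_smul]
        have a1 : ‖(2:ℕ) • innerSL ℝ w‖ = 2 * ‖w‖ := by
          rw [← Nat.cast_smul_eq_nsmul ℝ, norm_smul, innerSL_apply_norm]
          norm_num
        rw [a1, norm_neg, Real.norm_of_nonneg (by positivity : (0:ℝ) ≤ ((‖w‖ ^ 2) ^ 2)⁻¹)]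
        have a2 : ((‖w‖ ^ 2) ^ 2)⁻¹ * (2 * ‖w‖) ≤ (‖w‖ ^ 2)⁻¹ * 2 := by
          have hpos : 0 < ‖w‖ := by linarith
          have a3 : ((‖w‖ ^ 2) ^ 2)⁻¹ * (2 * ‖w‖) = (‖w‖ ^ 2)⁻¹ * (2 * ‖w‖⁻¹) := by
            field_simp
          rw [a3]
          refine mul_le_mul_of_nonneg_left ?_ (by positivity)
          have := inv_le_one_of_one_le₀ hw
          linarith
        calc ‖g (w.re + φ w)‖ * (((‖w‖ ^ 2) ^ 2)⁻¹ * (2 * ‖w‖))
            ≤ G * ((‖w‖ ^ 2)⁻¹ * 2) := mul_le_mul (d.hy.bd _) a2 (by positivity) hG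
          _ = _ := by ring
      calc _ ≤ (‖w‖ ^ 2)⁻¹ * (L * 2) + (‖w‖ ^ 2)⁻¹ * (G * 2) :=
            (norm_add_le _ _).trans (add_le_add n1 n2)
        _ = (‖w‖ ^ 2)⁻¹ * (2 * G + 2 * L) := by ring
        _ ≤ (cB B * H (3/2) w) * (2 * G + 2 * L) :=
            mul_le_mul_of_nonneg_right hk' (by positivity)
        _ = _ := by unfold cM; ring
    · have z1 := g_far_zero d.hy hre (d.hom w)
      have z2 := deriv_g_zero d.hy (g_far d.hy hre (d.hom w))
      rw [z1, z2]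
      simpa using hR

/-- derivative of `q` -/
noncomputable def Dq (η : ℝ) (h : ℂ → ℝ) (z : ℂ) : ℂ →L[ℝ] ℂ := η • DQ h z

lemma q_deriv (d : Dat g G L B η φ h) (hg : ContDiff ℝ 1 g) (z : ℂ) :
    HasFDerivAt (q η h) (Dq η h z) z :=
  (Q_hasFDerivAt (h_cd d hg) d.hbd (h_fderiv_bd d hg) z).const_smul η

lemma Dq_cont (d : Dat g G L B η φ h) (hg : ContDiff ℝ 1 g) : Continuous (Dq η h) :=
  (DQ_cont (h_cd d hg) (h_fderiv_bd d hg)).const_smul η

lemma q_cd (d : Dat g G L B η φ h) (hg : ContDiff ℝ 1 g) : ContDiff ℝ 1 (q η h) := by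
  rw [contDiff_one_iff_fderiv]
  refine ⟨fun z => (q_deriv d hg z).differentiableAt, ?_⟩
  have e : fderiv ℝ (q η h) = fun z => Dq η h z := funext fun z => (q_deriv d hg z).fderiv
  rw [e]
  exact Dq_cont d hg

lemma Dq_lap (d : Dat g G L B η φ h) (hg : ContDiff ℝ 1 g) (z : ℂ) :
    (Dq η h z 1 + Complex.I * Dq η h z Complex.I).re = η * (2 * Real.pi) * h z := by
  have h1 := lap_eq (h_cd d hg) (h_fderiv_bd d hg) z
  have h2 := radial (h_cd d hg) (h_bd d) (h_fderiv_bd d hg) z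
  rw [h2] at h1
  have e : Dq η h z 1 + Complex.I * Dq η h z Complex.I =
      η • (DQ h z 1 + Complex.I * DQ h z Complex.I) := by
    unfold Dq
    simp only [_root_.smul_apply, smul_add, mul_smul_comm]
  rw [e, Complex.smul_re, h1, smul_eq_mul]
  ring

/-- The harmonic-plus-potential profile. -/
theorem exists_dat (hy : Hyp g G L B) :
    ∃ η : ℝ, ∃ φ h : ℂ → ℝ, Dat g G L B η φ h := by
  obtain ⟨η, hη, H0⟩ := exists_phi hy
  obtain ⟨φ, h, a1, a2, a3, a4, a5, a6⟩ := H0 η hη le_rfl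
  exact ⟨η, φ, h, hy, hη, a1, a2, a3, a4, a5, a6⟩

end N766.HS
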