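import Mathlib

/-! Product weights on `ℂ` and the local integrability of `‖w‖⁻¹`. -/

open MeasureTheory Set Filter Topology

namespace N766.HS

/-- The product weight `(1+|x|)^(-s) (1+|y|)^(-s)`. -/
noncomputable def H (s : ℝ) (z : ℂ) : ℝ := (1 + |z.re|) ^ (-s) * (1 + |z.im|) ^ (-s)

lemma one_le_re (z : ℂ) : 1 ≤ 1 + |z.re| := by linarith [abs_nonneg z.re]
lemma one_le_im (z : ℂ) : 1 ≤ 1 + |z.im| := by linarith [abs_nonneg z.im]

lemma H_pos (s : ℝ) (z : ℂ) : 0 < H s z := by
  unfold H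
  have h1 := one_le_re z
  have h2 := one_le_im z
  positivity

lemma H_nonneg (s : ℝ) (z : ℂ) : 0 ≤ H s z := (H_pos s z).le

lemma H_le_one {s : ℝ} (hs : 0 ≤ s) (z : ℂ) : H s z ≤ 1 := by
  unfold H
  have h1 := one_le_re z
  have h2 := one_le_im z
  have a1 : (1 + |z.re|) ^ (-s) ≤ 1 := Real.rpow_le_one_of_one_le_of_nonpos h1 (by linarith)
  have a2 : (1 + |z.im|) ^ (-s) ≤ 1 := Real.rpow_le_one_of_one_le_of_nonpos h2 (by linarith)
  calc _ ≤ (1:ℝ) * 1 := mul_le_mul a1 a2 (by positivity) zero_le_one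
    _ = 1 := by ring

lemma H_cont (s : ℝ) : Continuous (H s) := by
  unfold H
  refine Continuous.mul ?_ ?_
  · refine Continuous.rpow_const (by fun_prop) (fun z => Or.inl ?_)
    linarith [one_le_re z]
  · refine Continuous.rpow_const (by fun_prop) (fun z => Or.inl ?_)
    linarith [one_le_im z]

lemma H_integrable {s : ℝ} (hs : 1 < s) : Integrable (H s) := by
  have h1 : Integrable (fun x : ℝ => (1 + ‖x‖) ^ (-s)) :=
    integrable_one_add_norm (by simpa using hs)
  have h2 := h1.mul_prod h1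
  have h3 := (Complex.volume_preserving_equiv_real_prod.integrable_comp_emb
    Complex.measurableEquivRealProd.measurableEmbedding).2 h2
  refine h3.congr (Eventually.of_forall fun z => ?_)
  simp [H, Function.comp, Complex.measurableEquivRealProd_apply]

/-- Peetre's inequality for the weight. -/
lemma H_sub_le {s : ℝ} (hs : 0 ≤ s) (z w : ℂ) : H s (z - w) ≤ (1 + ‖z‖) ^ (2 * s) * H s w := by
  have key : ∀ a b n : ℝ, |a| ≤ n → (1 + |a - b|) ^ (-s) ≤ (1 + n) ^ s * (1 + |b|) ^ (-s) := by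
    intro a b n hn
    have hb : 0 < 1 + |b| := by positivity
    have hab : 0 < 1 + |a - b| := by positivity
    have hn0 : 0 ≤ n := (abs_nonneg a).trans hn
    have h1 : 1 + |b| ≤ (1 + n) * (1 + |a - b|) := by
      have : |b| ≤ |a| + |a - b| := by
        have := abs_sub_abs_le_abs_sub b a
        rw [abs_sub_comm b a] at this
        linarith
      nlinarith [abs_nonneg (a - b)]
    have h2 : (1 + |b|) ^ s ≤ (1 + n) ^ s * (1 + |a - b|) ^ s := by
      rw [← Real.mul_rpow (by linarith) hab.le]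
      exact Real.rpow_le_rpow hb.le h1 hs
    rw [Real.rpow_neg hab.le, Real.rpow_neg hb.le, ← div_eq_mul_inv, le_div_iff₀ (by positivity),
      inv_mul_le_iff₀ (by positivity)]
    linarith
  have hr := key z.re w.re ‖z‖ (Complex.abs_re_le_norm z)
  have hi := key z.im w.im ‖z‖ (Complex.abs_im_le_norm z)
  unfold H
  calc (1 + |(z - w).re|) ^ (-s) * (1 + |(z - w).im|) ^ (-s)
      ≤ ((1 + ‖z‖) ^ s * (1 + |w.re|) ^ (-s)) * ((1 + ‖z‖) ^ s * (1 + |w.im|) ^ (-s)) := by
        simp only [Complex.sub_re, Complex.sub_im]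
        exact mul_le_mul hr hi (by positivity) (by positivity)
    _ = (1 + ‖z‖) ^ (2 * s) * ((1 + |w.re|) ^ (-s) * (1 + |w.im|) ^ (-s)) := by
        have : (1 + ‖z‖) ^ (2 * s) = (1 + ‖z‖) ^ s * (1 + ‖z‖) ^ s := by
          rw [← Real.rpow_add (by positivity)]; ring_nf
        rw [this]; ring

/-- the growth weight -/
noncomputable def om (z : ℂ) : ℝ := (1 + ‖z‖) ^ ((1:ℝ)/8)

lemma one_le_om (z : ℂ) : 1 ≤ om z := by
  unfold om
  exact Real.one_le_rpow (by linarith [norm_nonneg z]) (by norm_num)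

lemma om_pos (z : ℂ) : 0 < om z := lt_of_lt_of_le one_pos (one_le_om z)

lemma om_cont : Continuous om := by
  unfold om
  refine Continuous.rpow_const (by fun_prop) (fun z => Or.inl ?_)
  linarith [norm_nonneg z]

lemma om_le_prod (z : ℂ) : om z ≤ (1 + |z.re|) ^ ((1:ℝ)/8) * (1 + |z.im|) ^ ((1:ℝ)/8) := by
  have h := Complex.norm_le_abs_re_add_abs_im z
  unfold om
  rw [← Real.mul_rpow (by positivity) (by positivity)]
  refine Real.rpow_le_rpow (by positivity) ?_ (by norm_num)
  nlinarith [abs_nonneg z.re, abs_nonneg z.im]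

lemma om_mul_H_le (z : ℂ) : om z * H (3/2) z ≤ H (11/8) z := by
  have h1 := one_le_re z
  have h2 := one_le_im z
  calc om z * H (3/2) z
      ≤ ((1 + |z.re|) ^ ((1:ℝ)/8) * (1 + |z.im|) ^ ((1:ℝ)/8)) * H (3/2) z :=
        mul_le_mul_of_nonneg_right (om_le_prod z) (H_nonneg _ _)
    _ = H (11/8) z := by
        unfold H
        have e : ∀ a : ℝ, 0 < a → a ^ (-(11/8) : ℝ) = a ^ ((1:ℝ)/8) * a ^ (-(3/2) : ℝ) := by
          intro a ha
          rw [← Real.rpow_add ha]; norm_num
        rw [e _ (by linarith), e _ (by linarith)]; ring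

lemma om_mul_H_integrable : Integrable (fun z => om z * H (3/2) z) := by
  refine (H_integrable (s := 11/8) (by norm_num)).mono'
    (om_cont.mul (H_cont _)).aestronglyMeasurable (Eventually.of_forall fun z => ?_)
  rw [Real.norm_of_nonneg (mul_nonneg (om_pos z).le (H_nonneg _ _))]
  exact om_mul_H_le z

/-- the cut kernel -/
noncomputable def kb : ℂ → ℝ := indicator (Metric.ball 0 1) (fun w => ‖w‖⁻¹)

lemma kb_nonneg (w : ℂ) : 0 ≤ kb w := indicator_nonneg (fun _ _ => by positivity) w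

lemma kb_integrable : Integrable kb := by
  have h := (integrable_fun_norm_addHaar (μ := (volume : Measure ℂ))
    (f := indicator (Iio (1:ℝ)) (fun y => y⁻¹))).2 ?_
  · refine h.congr (Eventually.of_forall fun w => ?_)
    simp only [kb, indicator, mem_Iio, Metric.mem_ball, dist_zero_right]
  · have h2 : IntegrableOn (indicator (Iio (1:ℝ)) (fun _ => (1:ℝ))) (Ioi 0) := by
      rw [integrableOn_indicator_iff measurableSet_Iio]
      simp [Iio_inter_Ioi]
    refine h2.congr_fun ?_ measurableSet_Ioi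
    intro y hy
    have hy0 : y ≠ 0 := ne_of_gt hy
    by_cases h1 : y < 1
    · simp [indicator, h1, hy0]
    · simp [indicator, h1]

/-- the kernel times a quantity in `[0,1]` -/
lemma inv_norm_mul_le (w : ℂ) {x : ℝ} (hx : 0 ≤ x) (hx1 : x ≤ 1) : ‖w‖⁻¹ * x ≤ kb w + x := by
  by_cases h : ‖w‖ < 1
  · have : kb w = ‖w‖⁻¹ := by simp [kb, indicator, h]
    rw [this]
    have := mul_le_mul_of_nonneg_left hx1 (inv_nonneg.2 (norm_nonneg w))
    linarith
  · have h' : ‖w‖⁻¹ ≤ 1 := inv_le_one_of_one_le₀ (not_lt.1 h)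
    have := mul_le_mul_of_nonneg_right h' hx
    linarith [kb_nonneg w]

end N766.HS
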